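import Pool.Agent.N137.DR.Poly

set_option autoImplicit false

/-!
# Approximation of a dominated orbit by polynomials with integral coefficients
-/

namespace Pool.Agent.N137.DR

open Filter Topology MvPolynomial Pool.Agent.N137.AO

section ultra

variable {K : Type} [NormedField K] [IsUltrametricDist K]

theorem sub_le (a b : K) {C : ℝ} (ha : ‖a‖ ≤ C) (hb : ‖b‖ ≤ C) : ‖a - b‖ ≤ C := by
  rw [sub_eq_add_neg]
  exact (IsUltrametricDist.norm_add_le_max _ _).trans (max_le ha (by rwa [norm_neg]))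

theorem mul_diff {δ : ℝ} {u v u' v' : K} (hu : ‖u‖ ≤ 1) (hv' : ‖v'‖ ≤ 1)
    (h1 : ‖u - u'‖ ≤ δ) (h2 : ‖v - v'‖ ≤ δ) : ‖u * v - u' * v'‖ ≤ δ := by
  have h : u * v - u' * v' = u * (v - v') + (u - u') * v' := by ring
  rw [h]
  refine (IsUltrametricDist.norm_add_le_max _ _).trans (max_le ?_ ?_)
  · rw [norm_mul]
    exact (mul_le_of_le_one_left (norm_nonneg _) hu).trans h2
  · rw [norm_mul]
    exact (mul_le_of_le_one_right (norm_nonneg _) hv').trans h1

theorem pow_diff {δ : ℝ} (hδ : 0 ≤ δ) {u u' : K} (hu : ‖u‖ ≤ 1) (hu' : ‖u'‖ ≤ 1)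
    (h1 : ‖u - u'‖ ≤ δ) (k : ℕ) : ‖u ^ k - u' ^ k‖ ≤ δ := by
  induction k with
  | zero => simpa using hδ
  | succ k ih =>
    rw [pow_succ, pow_succ]
    refine mul_diff ?_ hu' ih h1
    rw [norm_pow]
    exact pow_le_one₀ (norm_nonneg _) hu

theorem prod_diff {ι : Type} (s : Finset ι) (β : ι → ℕ) {δ : ℝ} (hδ : 0 ≤ δ) (u u' : ι → K)
    (hu : ∀ i, ‖u i‖ ≤ 1) (hu' : ∀ i, ‖u' i‖ ≤ 1) (h1 : ∀ i, ‖u i - u' i‖ ≤ δ) :
    ‖∏ i ∈ s, u i ^ β i - ∏ i ∈ s, u' i ^ β i‖ ≤ δ := by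
  classical
  induction s using Finset.induction_on with
  | empty => simpa using hδ
  | insert a s ha ih =>
    rw [Finset.prod_insert ha, Finset.prod_insert ha]
    refine mul_diff ?_ ?_ (pow_diff hδ (hu a) (hu' a) (h1 a) _) ih
    · rw [norm_pow]
      exact pow_le_one₀ (norm_nonneg _) (hu a)
    · rw [norm_prod]
      refine Finset.prod_le_one (fun _ _ => norm_nonneg _) fun i _ => ?_
      rw [norm_pow]
      exact pow_le_one₀ (norm_nonneg _) (hu' i)

end ultra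

namespace DatE

variable {K : Type} [NormedField K] [IsUltrametricDist K] [CompleteSpace K] {ι : Type} [Fintype ι]
  (D : DatE K ι)

/-- variables -/
abbrev Q : Type := Σ i : ι, ↥((D.P i).support)

/-- constants -/
noncomputable def ccO (q : D.Q) : oK K :=
  ⟨D.cc q.1 q.2, mem_oK.2 ((D.norm_cc q.1 q.2 q.2.2).trans D.κ_lt.le)⟩

/-- bases -/
noncomputable def mmO (q : D.Q) : oK K :=
  ⟨D.mm q.1 q.2, mem_oK.2 ((D.norm_mm q.1 q.2 q.2.2).trans D.κ_lt.le)⟩

/-- inverse of the degree -/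
noncomputable def dinv : oK K :=
  ⟨(D.d : K)⁻¹, mem_oK.2 (by rw [norm_inv, D.hn D.d (by have := D.hd; omega), inv_one])⟩

/-- value at time `n` -/
noncomputable def vl (n : ℕ) : MvPolynomial D.Q (oK K) →+* K :=
  eval₂Hom (oK K).subtype fun q => D.mm q.1 q.2 ^ D.e n

/-- shift of the time -/
noncomputable def sg : MvPolynomial D.Q (oK K) →+* MvPolynomial D.Q (oK K) :=
  eval₂Hom C fun q => C (D.mmO q) * X q ^ D.d

theorem vl_C (n : ℕ) (c : oK K) : D.vl n (C c) = (c : K) := by simp [vl]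

theorem vl_X (n : ℕ) (q : D.Q) : D.vl n (X q) = D.mm q.1 q.2 ^ D.e n := by simp [vl]

theorem vl_sg (n : ℕ) (p : MvPolynomial D.Q (oK K)) : D.vl n (D.sg p) = D.vl (n + 1) p := by
  have h : (D.vl n).comp D.sg = D.vl (n + 1) := by
    apply MvPolynomial.ringHom_ext
    · intro c
      rw [RingHom.comp_apply, sg, coe_eval₂Hom, eval₂_C, vl_C, vl_C]
    · intro q
      rw [RingHom.comp_apply, sg, coe_eval₂Hom, eval₂_X, map_mul, map_pow, vl_C, vl_X, vl_X,
        e_succ, pow_succ, pow_mul']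
      exact mul_comm _ _
  exact congrArg (fun f : MvPolynomial D.Q (oK K) →+* K => f p) h

theorem vl_le (n : ℕ) (p : MvPolynomial D.Q (oK K)) : ‖D.vl n p‖ ≤ 1 := by
  induction p using MvPolynomial.induction_on with
  | C c => rw [vl_C]; exact c.2
  | add p q hp hq =>
    rw [map_add]
    exact (IsUltrametricDist.norm_add_le_max _ _).trans (max_le hp hq)
  | mul_X p q hp =>
    rw [map_mul, vl_X, norm_mul, norm_pow]
    refine mul_le_one₀ hp (pow_nonneg (norm_nonneg _) _) (pow_le_one₀ (norm_nonneg _) ?_)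
    exact (D.norm_mm q.1 q.2 q.2.2).trans D.κ_lt.le

/-- The approximations of `η`. -/
noncomputable def E : ℕ → ι → MvPolynomial D.Q (oK K)
  | 0, _ => 0
  | k + 1, i => C D.dinv * (D.sg (E k i) - ((1 + E k i) ^ D.d - 1 - (D.d : MvPolynomial D.Q (oK K))
      * E k i) - ∑ β : ↥((D.P i).support), C (D.ccO ⟨i, β⟩) * X (⟨i, β⟩ : D.Q) *
        ∏ j, (1 + E k j) ^ ((β : ι →₀ ℕ) j))

theorem vl_E (k n : ℕ) (i : ι) : D.vl n (D.E (k + 1) i) = (D.d : K)⁻¹ *
    (D.vl (n + 1) (D.E k i) - ((1 + D.vl n (D.E k i)) ^ D.d - 1 - D.d * D.vl n (D.E k i)) -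
      ∑ β ∈ (D.P i).support, D.cc i β * D.mm i β ^ D.e n *
        ∏ j, (1 + D.vl n (D.E k j)) ^ (β j)) := by
  rw [E]
  simp only [map_mul, map_sub, map_add, map_pow, map_one, map_natCast, map_sum, map_prod, vl_C,
    vl_X, vl_sg]
  congr 1
  congr 1
  exact Finset.sum_coe_sort (D.P i).support fun β => D.cc i β * D.mm i β ^ D.e n *
        ∏ j, (1 + D.vl n (D.E k j)) ^ (β j)

theorem d_norm : ‖(D.d : K)‖ = 1 := D.hn D.d (by have := D.hd; omega)

theorem η_fix (n : ℕ) (i : ι) : D.η n i = (D.d : K)⁻¹ *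
    (D.η (n + 1) i - ((1 + D.η n i) ^ D.d - 1 - D.d * D.η n i) -
      ∑ β ∈ (D.P i).support, D.cc i β * D.mm i β ^ D.e n * ∏ j, (1 + D.η n j) ^ (β j)) := by
  have h1 := D.func n i
  have hd0 : (D.d : K) ≠ 0 := by
    rw [← norm_pos_iff, D.d_norm]
    exact one_pos
  rw [eq_inv_mul_iff_mul_eq₀ hd0]
  linear_combination -h1

theorem eps_nonneg (n : ℕ) : 0 ≤ D.κ ^ n := pow_nonneg D.κ_pos.le _

theorem one_add_le {x : K} (hx : ‖x‖ ≤ 1) : ‖1 + x‖ ≤ 1 :=
  (IsUltrametricDist.norm_add_le_max _ _).trans (max_le norm_one.le hx)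

theorem apx (k : ℕ) : ∀ n i, ‖D.η n i - D.vl n (D.E k i)‖ ≤ D.κ ^ ((k + 1) * (D.e n + 1)) := by
  induction k with
  | zero =>
    intro n i
    rw [E, map_zero, sub_zero, zero_add, one_mul]
    exact D.η_bound n i
  | succ k ih =>
    intro n i
    have hη1 : ∀ j, ‖D.η n j‖ ≤ D.κ ^ (D.e n + 1) := D.η_bound n
    have hη : ∀ j, ‖D.η n j‖ ≤ 1 := fun j =>
      (hη1 j).trans (pow_le_one₀ D.κ_pos.le D.κ_lt.le)
    have hE1 : ∀ j, ‖D.vl n (D.E k j)‖ ≤ D.κ ^ (D.e n + 1) := by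
      intro j
      have h1 : D.vl n (D.E k j) = D.η n j - (D.η n j - D.vl n (D.E k j)) := by ring
      rw [h1]
      refine sub_le _ _ (hη1 j) ((ih n j).trans (D.κ_pow_le ?_))
      exact Nat.le_mul_of_pos_left _ (Nat.succ_pos _)
    have hlt : D.κ ^ (D.e n + 1) < 1 := pow_lt_one₀ D.κ_pos.le D.κ_lt (Nat.succ_ne_zero _)
    rw [D.η_fix n i, D.vl_E, ← mul_sub, norm_mul, norm_inv, D.d_norm, inv_one, one_mul]
    -- the three differences
    have t1 : ‖D.η (n + 1) i - D.vl (n + 1) (D.E k i)‖ ≤ D.κ ^ ((k + 1 + 1) * (D.e n + 1)) := by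
      refine (ih (n + 1) i).trans (D.κ_pow_le ?_)
      rw [e_succ]
      have h2 : 2 * D.e n ≤ D.d * D.e n := Nat.mul_le_mul_right _ D.hd
      calc (k + 1 + 1) * (D.e n + 1) ≤ (k + 1 + (k + 1)) * (D.e n + 1) :=
            Nat.mul_le_mul_right _ (by omega)
        _ = (k + 1) * (2 * D.e n + 1 + 1) := by ring
        _ ≤ (k + 1) * (D.d * D.e n + 1 + 1) := Nat.mul_le_mul_left _ (by omega)
    have t2 : ‖((1 + D.η n i) ^ D.d - 1 - D.d * D.η n i) -
        ((1 + D.vl n (D.E k i)) ^ D.d - 1 - D.d * D.vl n (D.E k i))‖ ≤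
          D.κ ^ ((k + 1 + 1) * (D.e n + 1)) := by
      obtain ⟨S, hS, hS'⟩ := geom_close (D.eps_nonneg _) hlt (hη1 i) (hE1 i) D.d
      have h3 : ((1 + D.η n i) ^ D.d - 1 - D.d * D.η n i) -
          ((1 + D.vl n (D.E k i)) ^ D.d - 1 - D.d * D.vl n (D.E k i)) =
          (D.η n i - D.vl n (D.E k i)) * (S - D.d) := by
        linear_combination hS'
      rw [h3, norm_mul]
      calc ‖D.η n i - D.vl n (D.E k i)‖ * ‖S - D.d‖
          ≤ D.κ ^ ((k + 1) * (D.e n + 1)) * D.κ ^ (D.e n + 1) :=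
            mul_le_mul (ih n i) hS (norm_nonneg _) (D.eps_nonneg _)
        _ = D.κ ^ ((k + 1 + 1) * (D.e n + 1)) := by
            rw [← pow_add]
            congr 1
            ring
    have t3 : ‖∑ β ∈ (D.P i).support, D.cc i β * D.mm i β ^ D.e n * ∏ j, (1 + D.η n j) ^ (β j) -
        ∑ β ∈ (D.P i).support, D.cc i β * D.mm i β ^ D.e n *
          ∏ j, (1 + D.vl n (D.E k j)) ^ (β j)‖ ≤ D.κ ^ ((k + 1 + 1) * (D.e n + 1)) := by
      rw [← Finset.sum_sub_distrib]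
      refine IsUltrametricDist.norm_sum_le_of_forall_le_of_nonneg (D.eps_nonneg _) fun β hβ => ?_
      rw [← mul_sub, norm_mul]
      have h4 : ‖D.cc i β * D.mm i β ^ D.e n‖ ≤ D.κ ^ (D.e n + 1) := by
        rw [norm_mul, norm_pow, pow_succ']
        exact mul_le_mul (D.norm_cc i β hβ) (pow_le_pow_left₀ (norm_nonneg _)
          (D.norm_mm i β hβ) _) (pow_nonneg (norm_nonneg _) _) D.κ_pos.le
      have h5 : ‖∏ j, (1 + D.η n j) ^ (β j) - ∏ j, (1 + D.vl n (D.E k j)) ^ (β j)‖ ≤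
          D.κ ^ ((k + 1) * (D.e n + 1)) := by
        refine prod_diff _ _ (D.eps_nonneg _) _ _ (fun j => one_add_le (hη j))
          (fun j => one_add_le (D.vl_le n _)) fun j => ?_
        rw [add_sub_add_left_eq_sub]
        exact ih n j
      calc ‖D.cc i β * D.mm i β ^ D.e n‖ *
            ‖∏ j, (1 + D.η n j) ^ (β j) - ∏ j, (1 + D.vl n (D.E k j)) ^ (β j)‖
          ≤ D.κ ^ (D.e n + 1) * D.κ ^ ((k + 1) * (D.e n + 1)) :=
            mul_le_mul h4 h5 (norm_nonneg _) (D.eps_nonneg _)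
        _ = D.κ ^ ((k + 1 + 1) * (D.e n + 1)) := by
            rw [← pow_add]
            congr 1
            ring
    have h6 : ∀ a b c a' b' c' : K, a - b - c - (a' - b' - c') = (a - a') - (b - b') - (c - c') := by
      intros; ring
    rw [h6]
    exact sub_le _ _ (sub_le _ _ t1 t2) t3

end DatE

end Pool.Agent.N137.DR
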