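import Pool.Agent.N137.DR.Exps

set_option autoImplicit false

/-!
# Polynomials along a dominated orbit
-/

namespace Pool.Agent.N137.DR

open Filter Topology MvPolynomial Pool.Agent.N137.AO

namespace DatE

variable {K : Type} [NormedField K] [IsUltrametricDist K] [CompleteSpace K] {ι : Type} [Fintype ι]
  (D : DatE K ι)

/-- bases as units -/
noncomputable def wu (i : ι) : Kˣ := Units.mk0 (D.w i) (D.w_ne i)

/-- bases of the lower terms as units -/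
noncomputable def mu (i : ι) (β : ι →₀ ℕ) : Kˣ := (∏ j, D.wu j ^ (β j)) * (D.wu i ^ D.d)⁻¹

theorem mu_val (i : ι) (β : ι →₀ ℕ) : ((D.mu i β : Kˣ) : K) = D.mm i β := by
  rw [mu, mm, Units.val_mul, Units.val_inv_eq_inv_val, Units.coe_prod, Units.val_pow_eq_pow_val,
    div_eq_mul_inv]
  rfl

/-- the group -/
noncomputable def Γ : Subgroup Kˣ := Subgroup.closure (Set.range D.wu)

theorem wu_mem (i : ι) : D.wu i ∈ D.Γ := Subgroup.subset_closure ⟨i, rfl⟩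

theorem mu_mem (i : ι) (β : ι →₀ ℕ) : D.mu i β ∈ D.Γ :=
  Subgroup.mul_mem _ (Subgroup.prod_mem _ fun j _ => Subgroup.pow_mem _ (D.wu_mem j) _)
    (Subgroup.inv_mem _ (Subgroup.pow_mem _ (D.wu_mem i) _))

/-- approximation of `∏ (1 + η) ^ α` -/
noncomputable def HH (k : ℕ) (α : ι →₀ ℕ) : MvPolynomial D.Q (oK K) := ∏ i, (1 + D.E k i) ^ (α i)

theorem HH_apx (k : ℕ) (α : ι →₀ ℕ) (n : ℕ) :
    ‖∏ i, (1 + D.η n i) ^ (α i) - D.vl n (D.HH k α)‖ ≤ D.κ ^ (k * D.e n) := by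
  have h1 : D.vl n (D.HH k α) = ∏ i, (1 + D.vl n (D.E k i)) ^ (α i) := by
    rw [HH, map_prod]
    simp only [map_pow, map_add, map_one]
  rw [h1]
  refine prod_diff _ _ (D.eps_nonneg _) _ _ (fun j => one_add_le ?_)
    (fun j => one_add_le (D.vl_le n _)) fun j => ?_
  · exact (D.η_bound n j).trans (pow_le_one₀ D.κ_pos.le D.κ_lt.le)
  · rw [add_sub_add_left_eq_sub]
    refine (D.apx k n j).trans (D.κ_pow_le ?_)
    exact Nat.mul_le_mul (Nat.le_succ _) (Nat.le_succ _)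

theorem vl_expand (n : ℕ) (p : MvPolynomial D.Q (oK K)) :
    D.vl n p = ∑ δ ∈ p.support, ((coeff δ p : oK K) : K) *
      (((∏ q : D.Q, D.mu q.1 q.2 ^ (δ q) : Kˣ) : K)) ^ D.e n := by
  rw [vl, coe_eval₂Hom, eval₂_eq']
  refine Finset.sum_congr rfl fun δ _ => ?_
  congr 1
  rw [Units.coe_prod, ← Finset.prod_pow]
  refine Finset.prod_congr rfl fun q _ => ?_
  rw [Units.val_pow_eq_pow_val, mu_val, ← pow_mul, ← pow_mul, mul_comm]

theorem y_prod (n : ℕ) (α : ι →₀ ℕ) : ∏ i, D.y n i ^ (α i) =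
    (∏ i, D.b i ^ (α i)) * (((∏ i, D.wu i ^ (α i) : Kˣ) : K)) ^ D.e n *
      ∏ i, (1 + D.η n i) ^ (α i) := by
  rw [Units.coe_prod, ← Finset.prod_pow, ← Finset.prod_mul_distrib, ← Finset.prod_mul_distrib]
  refine Finset.prod_congr rfl fun i _ => ?_
  rw [D.y_eq n i, Units.val_pow_eq_pow_val, wu, Units.val_mk0, mul_pow, mul_pow, ← pow_mul,
    ← pow_mul, mul_comm (D.e n)]

theorem happ (h : MvPolynomial ι K) : ∃ C B : ℝ, 0 ≤ C ∧ 0 ≤ B ∧
    ∀ k : ℕ, ∃ (J : Type) (s : Finset J) (A : J → K) (g : J → Kˣ),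
      (∀ j ∈ s, g j ∈ D.Γ ∧ ‖A j‖ ≤ C) ∧
      ∀ n, ‖eval (D.y n) h - ∑ j ∈ s, A j * (g j : K) ^ D.e n‖ ≤ C * (B * D.κ ^ k) ^ D.e n := by
  classical
  let cf : (ι →₀ ℕ) → K := fun α => coeff α h * ∏ i, D.b i ^ (α i)
  let wα : (ι →₀ ℕ) → Kˣ := fun α => ∏ i, D.wu i ^ (α i)
  set C := ∑ α ∈ h.support, ‖cf α‖ with hC
  set B := ∑ α ∈ h.support, ‖((wα α : Kˣ) : K)‖ with hB
  have hC0 : 0 ≤ C := Finset.sum_nonneg fun _ _ => norm_nonneg _
  have hB0 : 0 ≤ B := Finset.sum_nonneg fun _ _ => norm_nonneg _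
  have hCle : ∀ α ∈ h.support, ‖cf α‖ ≤ C := fun α hα =>
    Finset.single_le_sum (f := fun α => ‖cf α‖) (fun _ _ => norm_nonneg _) hα
  have hBle : ∀ α ∈ h.support, ‖((wα α : Kˣ) : K)‖ ≤ B := fun α hα =>
    Finset.single_le_sum (f := fun α => ‖((wα α : Kˣ) : K)‖) (fun _ _ => norm_nonneg _) hα
  refine ⟨C, B, hC0, hB0, fun k => ?_⟩
  refine ⟨Σ _ : ι →₀ ℕ, (D.Q →₀ ℕ), h.support.sigma fun α => (D.HH k α).support,
    fun j => cf j.1 * ((coeff j.2 (D.HH k j.1) : oK K) : K),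
    fun j => wα j.1 * ∏ q : D.Q, D.mu q.1 q.2 ^ (j.2 q), ?_, ?_⟩
  · rintro ⟨α, δ⟩ hj
    rw [Finset.mem_sigma] at hj
    refine ⟨Subgroup.mul_mem _ (Subgroup.prod_mem _ fun i _ => Subgroup.pow_mem _ (D.wu_mem i) _)
      (Subgroup.prod_mem _ fun q _ => Subgroup.pow_mem _ (D.mu_mem _ _) _), ?_⟩
    rw [norm_mul]
    exact (mul_le_of_le_one_right (norm_nonneg _) (coeff δ (D.HH k α)).2).trans (hCle α hj.1)
  · intro n
    have h1 : ∑ j ∈ h.support.sigma fun α => (D.HH k α).support,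
        cf j.1 * ((coeff j.2 (D.HH k j.1) : oK K) : K) *
          (((wα j.1 * ∏ q : D.Q, D.mu q.1 q.2 ^ (j.2 q) : Kˣ) : K)) ^ D.e n =
        ∑ α ∈ h.support, cf α * ((wα α : Kˣ) : K) ^ D.e n * D.vl n (D.HH k α) := by
      rw [Finset.sum_sigma]
      refine Finset.sum_congr rfl fun α _ => ?_
      rw [D.vl_expand, Finset.mul_sum]
      refine Finset.sum_congr rfl fun δ _ => ?_
      rw [Units.val_mul, mul_pow]
      ring
    have h2 : eval (D.y n) h = ∑ α ∈ h.support, cf α * ((wα α : Kˣ) : K) ^ D.e n *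
        ∏ i, (1 + D.η n i) ^ (α i) := by
      rw [eval_eq']
      refine Finset.sum_congr rfl fun α _ => ?_
      rw [D.y_prod n α]
      ring
    rw [h1, h2, ← Finset.sum_sub_distrib]
    refine IsUltrametricDist.norm_sum_le_of_forall_le_of_nonneg
      (mul_nonneg hC0 (pow_nonneg (mul_nonneg hB0 (pow_nonneg D.κ_pos.le _)) _)) fun α hα => ?_
    rw [← mul_sub, norm_mul, norm_mul, norm_pow]
    calc ‖cf α‖ * ‖((wα α : Kˣ) : K)‖ ^ D.e n *
          ‖∏ i, (1 + D.η n i) ^ (α i) - D.vl n (D.HH k α)‖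
        ≤ C * B ^ D.e n * D.κ ^ (k * D.e n) := by
          refine mul_le_mul (mul_le_mul (hCle α hα) (pow_le_pow_left₀ (norm_nonneg _)
            (hBle α hα) _) (pow_nonneg (norm_nonneg _) _) hC0) (D.HH_apx k α n) (norm_nonneg _)
            (mul_nonneg hC0 (pow_nonneg hB0 _))
      _ = C * (B * D.κ ^ k) ^ D.e n := by
          rw [mul_pow, ← pow_mul]
          ring

/-- **The core theorem.** -/
theorem core (Ψ : oK K →+* ℂ) (hΨ : ∀ x, Ψ x = 0 ↔ ‖(x : K)‖ < 1) :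
    ∃ M : ℕ, M ≠ 0 ∧ ∀ (h : MvPolynomial ι K) (r : ℕ),
      (∀ᶠ j in atTop, eval (D.y (M * j + r)) h = 0) ∨
      (∀ᶠ j in atTop, eval (D.y (M * j + r)) h ≠ 0) := by
  obtain ⟨M₀, hM₀, hR⟩ := good_group Ψ hΨ (Set.range D.wu) (Set.finite_range _)
  obtain ⟨M', n₀, hM'0, hM'⟩ := ex_periodic D.d M₀ hM₀
  refine ⟨M', hM'0, fun h r => ?_⟩
  obtain ⟨C, B, hC, hB, happ⟩ := D.happ h
  exact dich_exp D.Γ M₀ hM₀ hR D.d D.hd (fun n => eval (D.y n) h) C B D.κ hC hB D.κ_pos D.κ_lt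
    happ M' n₀ hM'0 hM' r

end DatE

end Pool.Agent.N137.DR
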