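import Pool.Agent.N137.DR.Apx
import Pool.Agent.N137.AO.FinB

set_option autoImplicit false

/-!
# Exponential sums along `1 + d + ... + d ^ (n - 1)`
-/

namespace Pool.Agent.N137.DR

open Filter Topology Pool.Agent.N137.AO

section dom

open Polynomial

variable {K : Type} [NormedField K]

theorem dominate0 {R : Set K} (hR : Good R) : ∀ (k : ℕ) (s : Multiset K),
    s.card = k → (∀ μ ∈ s, μ ∈ R ∧ μ ≠ 0) → ∀ e : ℕ → K,
    aeval (sh : Module.End K (ℕ → K)) (pol s) e = 0 →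
    e = 0 ∨ ∃ μ ∈ s, ∃ c : ℝ, 0 < c ∧ ∀ᶠ n in atTop, c * ‖μ‖ ^ n ≤ ‖e n‖ := by
  classical
  intro k
  induction k using Nat.strong_induction_on with
  | _ k ih =>
  intro s hk hs e he
  rcases Multiset.empty_or_exists_mem s with h | ⟨μ₀, hμ₀⟩
  · left
    rw [h, pol_zero, map_one, Module.End.one_apply] at he
    exact he
  have hne : s.toFinset.Nonempty := ⟨μ₀, Multiset.mem_toFinset.2 hμ₀⟩
  obtain ⟨μ₁, hμ₁, hmax⟩ := s.toFinset.exists_max_image (fun μ => ‖μ‖) hne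
  rw [Multiset.mem_toFinset] at hμ₁
  set ρ := ‖μ₁‖ with hρ
  have hρ0 : 0 < ρ := norm_pos_iff.2 (hs μ₁ hμ₁).2
  set s₁ := s.filter (fun μ => ‖μ‖ = ρ) with hs₁
  set s₂ := s.filter (fun μ => ¬ ‖μ‖ = ρ) with hs₂
  have hsum : s₁ + s₂ = s := Multiset.filter_add_not _ _
  have hcard : s₂.card < k := by
    have h1 : s₁.card + s₂.card = k := by rw [← Multiset.card_add, hsum, hk]
    have h2 : 0 < s₁.card := Multiset.card_pos_iff_exists_mem.2
      ⟨μ₁, Multiset.mem_filter.2 ⟨hμ₁, rfl⟩⟩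
    omega
  have hcop : IsCoprime (pol s₁) (pol s₂) := by
    refine pol_coprime _ _ fun μ hμ ν hν h => ?_
    rw [hs₁, Multiset.mem_filter] at hμ
    rw [hs₂, Multiset.mem_filter] at hν
    rw [h] at hμ
    exact hν.2 hμ.2
  obtain ⟨a, b, hab⟩ := hcop
  set e₁ := aeval (sh : Module.End K (ℕ → K)) (b * pol s₂) e with he₁
  set e₂ := aeval (sh : Module.End K (ℕ → K)) (a * pol s₁) e with he₂
  have hsplit : e = e₁ + e₂ := by
    rw [he₁, he₂, ← LinearMap.add_apply, ← map_add, add_comm, hab, map_one,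
      Module.End.one_apply]
  have hpol : pol s = pol s₁ * pol s₂ := by rw [← pol_add, hsum]
  have h1 : aeval (sh : Module.End K (ℕ → K)) (pol s₁) e₁ = 0 := by
    rw [he₁, ← Module.End.mul_apply, ← map_mul,
      show pol s₁ * (b * pol s₂) = b * pol s by rw [hpol]; ring, map_mul, Module.End.mul_apply, he,
      map_zero]
  have h2 : aeval (sh : Module.End K (ℕ → K)) (pol s₂) e₂ = 0 := by
    rw [he₂, ← Module.End.mul_apply, ← map_mul,
      show pol s₂ * (a * pol s₁) = a * pol s by rw [hpol]; ring, map_mul, Module.End.mul_apply, he,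
      map_zero]
  by_cases h0 : e₁ = 0
  · rw [h0, zero_add] at hsplit
    rw [hsplit]
    rcases ih _ hcard s₂ rfl (fun μ hμ => hs μ (Multiset.mem_filter.1 hμ).1) e₂ h2 with h | h
    · exact Or.inl h
    · obtain ⟨μ, hμ, c, hc⟩ := h
      exact Or.inr ⟨μ, (Multiset.mem_filter.1 hμ).1, c, hc⟩
  · right
    obtain ⟨c, hc, hev⟩ := hR ρ hρ0 s₁ (fun μ hμ => by
      rw [hs₁, Multiset.mem_filter] at hμ
      exact ⟨(hs μ hμ.1).1, hμ.2⟩) e₁ h1 h0
    obtain ⟨θ, hθ0, hθρ, hθ⟩ : ∃ θ : ℝ, 0 < θ ∧ θ < ρ ∧ ∀ μ ∈ s₂, ‖μ‖ < θ := by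
      have hlt : ∀ μ ∈ s₂, ‖μ‖ < ρ := by
        intro μ hμ
        rw [hs₂, Multiset.mem_filter] at hμ
        exact lt_of_le_of_ne (hmax μ (Multiset.mem_toFinset.2 hμ.1)) hμ.2
      obtain ⟨M, hM0, hMρ, hM⟩ : ∃ M : ℝ, 0 ≤ M ∧ M < ρ ∧ ∀ μ ∈ s₂, ‖μ‖ ≤ M := by
        rcases s₂.toFinset.eq_empty_or_nonempty with h | h
        · refine ⟨0, le_rfl, hρ0, fun μ hμ => ?_⟩
          rw [← Multiset.mem_toFinset, h] at hμ
          exact absurd hμ (Finset.notMem_empty _)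
        · obtain ⟨ν, hν, hνmax⟩ := s₂.toFinset.exists_max_image (fun μ => ‖μ‖) h
          exact ⟨‖ν‖, norm_nonneg _, hlt ν (Multiset.mem_toFinset.1 hν),
            fun μ hμ => hνmax μ (Multiset.mem_toFinset.2 hμ)⟩
      obtain ⟨θ, h3, h4⟩ := exists_between hMρ
      exact ⟨θ, hM0.trans_lt h3, h4, fun μ hμ => (hM μ hμ).trans_lt h3⟩
    obtain ⟨E, hE⟩ := bo_all hθ0 s₂ hθ e₂ h2
    refine ⟨μ₁, hμ₁, c / 2, by positivity, ?_⟩
    have h3 : Tendsto (fun n : ℕ => E * (θ / ρ) ^ n) atTop (𝓝 (E * 0)) :=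
      (tendsto_pow_atTop_nhds_zero_of_lt_one (by positivity) ((div_lt_one hρ0).2 hθρ)).const_mul E
    rw [mul_zero] at h3
    filter_upwards [hev, h3.eventually_lt_const (half_pos hc)] with n hn1 hn2
    have h4 : ‖e₂ n‖ ≤ c / 2 * ρ ^ n := by
      refine (hE n).trans ?_
      have h5 : θ ^ n = (θ / ρ) ^ n * ρ ^ n := by
        rw [div_pow, div_mul_cancel₀ _ (pow_pos hρ0 n).ne']
      rw [h5, ← mul_assoc]
      exact mul_le_mul_of_nonneg_right hn2.le (by positivity)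
    have h6 : ‖e₁ n‖ ≤ ‖e n‖ + ‖e₂ n‖ := by
      have h7 : e₁ n = e n - e₂ n := by
        rw [hsplit]
        simp
      rw [h7]
      exact norm_sub_le _ _
    linarith

theorem exp_killed {J : Type} (s : Finset J) (A γ : J → K) (M r : ℕ) :
    aeval (sh : Module.End K (ℕ → K)) (pol (s.val.map fun j => γ j ^ M))
      (fun n => ∑ j ∈ s, A j * γ j ^ (M * n + r)) = 0 := by
  classical
  have h1 : (fun n => ∑ j ∈ s, A j * γ j ^ (M * n + r)) =
      ∑ j ∈ s, fun n => A j * γ j ^ (M * n + r) := by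
    funext n
    rw [Finset.sum_apply]
  rw [h1, map_sum]
  refine Finset.sum_eq_zero fun j hj => ?_
  refine pol_le (s := {γ j ^ M}) ?_ ?_
  · rw [Multiset.singleton_le]
    exact Multiset.mem_map_of_mem _ hj
  · rw [pol, Multiset.map_singleton, Multiset.prod_singleton, aeval_lin]
    funext n
    simp only [Pi.zero_apply]
    ring

end dom

theorem ex_tendsto (d : ℕ) (hd : 2 ≤ d) : Tendsto (ex d) atTop atTop :=
  tendsto_atTop_mono (fun n => le_ex d n hd) tendsto_id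

theorem ex_periodic (d M : ℕ) (hM : M ≠ 0) : ∃ M' n₀ : ℕ, M' ≠ 0 ∧
    ∀ n, n₀ ≤ n → ex d (n + M') % M = ex d n % M := by
  have : NeZero M := ⟨hM⟩
  obtain ⟨m, n, hmn, h⟩ := Finite.exists_ne_map_eq_of_infinite (fun n : ℕ => (ex d n : ZMod M))
  wlog hlt : m < n generalizing m n
  · exact this n m hmn.symm h.symm (lt_of_le_of_ne (not_lt.1 hlt) hmn.symm)
  refine ⟨n - m, m, by omega, fun k hk => ?_⟩
  rw [← ZMod.natCast_eq_natCast_iff']
  obtain ⟨j, rfl⟩ := Nat.exists_eq_add_of_le hk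
  induction j with
  | zero =>
    rw [add_zero, Nat.add_sub_cancel' hlt.le]
    exact h.symm
  | succ j ih =>
    have h1 : m + (j + 1) + (n - m) = m + j + (n - m) + 1 := by omega
    have h2 : m + (j + 1) = m + j + 1 := by omega
    rw [h1, h2, ex_succ, ex_succ]
    push_cast
    rw [ih (by omega)]

section final

variable {K : Type} [NormedField K] [IsUltrametricDist K]

/-- one-units -/
def nearK (K : Type) [NormedField K] [IsUltrametricDist K] : Subgroup Kˣ where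
  carrier := {g | ‖(g : K) - 1‖ < 1}
  one_mem' := by simp
  mul_mem' := by
    intro a b ha hb
    simp only [Set.mem_ofPred_eq, Units.val_mul] at ha hb ⊢
    have h1 := max_lt ha hb
    exact (close_mul h1 (le_max_left _ _) (le_max_right _ _)).trans_lt h1
  inv_mem' := by
    intro a ha
    simp only [Set.mem_ofPred_eq, Units.val_inv_eq_inv_val] at ha ⊢
    exact (close_inv ha le_rfl).trans_lt ha

theorem mem_nearK {g : Kˣ} : g ∈ nearK K ↔ ‖(g : K) - 1‖ < 1 := Iff.rfl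

theorem good_group (Ψ : oK K →+* ℂ) (hΨ : ∀ x, Ψ x = 0 ↔ ‖(x : K)‖ < 1) (s : Set Kˣ)
    (hs : s.Finite) : ∃ M : ℕ, M ≠ 0 ∧
      Good {x : K | ∃ g ∈ Subgroup.closure s, x = (g : K) ^ M} := by
  obtain ⟨M, hM, h⟩ := grp_exp Kˣ s hs (nearK K)
  refine ⟨M, hM, goodB Ψ hΨ _ ?_⟩
  rintro _ ⟨g, hg, rfl⟩ _ ⟨g', hg', rfl⟩ _ _ j hj hlt
  have e1 : ∀ k : ℕ, ‖((((g * g'⁻¹ : Kˣ) ^ k : Kˣ) : K)) - 1‖ = ‖((g : K) / g') ^ k - 1‖ := by
    intro k
    rw [Units.val_pow_eq_pow_val, Units.val_mul, Units.val_inv_eq_inv_val, div_eq_mul_inv]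
  rw [← div_pow, ← pow_mul, ← e1] at hlt
  rw [← div_pow, ← e1]
  exact h _ (Subgroup.mul_mem _ hg (Subgroup.inv_mem _ hg')) ⟨M * j, Nat.mul_ne_zero hM hj, hlt⟩

theorem dich_exp (Γ : Subgroup Kˣ) (M : ℕ) (hM : M ≠ 0)
    (hR : Good {x : K | ∃ g ∈ Γ, x = (g : K) ^ M}) (d : ℕ) (hd : 2 ≤ d) (u : ℕ → K) (C B κ : ℝ)
    (hC : 0 ≤ C) (hB : 0 ≤ B) (hκ0 : 0 < κ) (hκ : κ < 1)
    (happ : ∀ k : ℕ, ∃ (J : Type) (s : Finset J) (A : J → K) (g : J → Kˣ),
      (∀ j ∈ s, g j ∈ Γ ∧ ‖A j‖ ≤ C) ∧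
      ∀ n, ‖u n - ∑ j ∈ s, A j * (g j : K) ^ ex d n‖ ≤ C * (B * κ ^ k) ^ ex d n)
    (M' n₀ : ℕ) (hM'0 : M' ≠ 0) (hM' : ∀ n, n₀ ≤ n → ex d (n + M') % M = ex d n % M) (r : ℕ) :
    (∀ᶠ j in atTop, u (M' * j + r) = 0) ∨ (∀ᶠ j in atTop, u (M' * j + r) ≠ 0) := by
  classical
  choose J s A g hg happ using happ
  -- the residue
  have htend : Tendsto (fun j : ℕ => M' * j + r) atTop atTop := tend_cls M' r hM'0
  obtain ⟨R, hRR⟩ : ∃ R : ℕ, ∀ᶠ j in atTop, ex d (M' * j + r) % M = R := by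
    refine ⟨ex d (M' * n₀ + r) % M, ?_⟩
    filter_upwards [eventually_ge_atTop n₀] with j hj
    induction j, hj using Nat.le_induction with
    | base => rfl
    | succ j hj ih =>
      have h1 : M' * (j + 1) + r = M' * j + r + M' := by ring
      rw [h1, hM' _ ?_, ih]
      calc n₀ ≤ j := hj
        _ ≤ M' * j := Nat.le_mul_of_pos_left j (Nat.pos_of_ne_zero hM'0)
        _ ≤ M' * j + r := Nat.le_add_right _ _
  have hsplit : ∀ᶠ j in atTop, ex d (M' * j + r) = M * (ex d (M' * j + r) / M) + R := by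
    filter_upwards [hRR] with j hj
    rw [← hj]
    exact (Nat.div_add_mod _ _).symm
  have hN : Tendsto (fun j : ℕ => ex d (M' * j + r) / M) atTop atTop :=
    (Nat.tendsto_div_const_atTop hM).comp ((ex_tendsto d hd).comp htend)
  -- the large terms
  let τ : ℕ → ℝ := fun k => B * κ ^ k
  have hτ0 : ∀ k, 0 ≤ τ k := fun k => mul_nonneg hB (pow_nonneg hκ0.le k)
  let sL : (k : ℕ) → Finset (J k) := fun k => (s k).filter fun j => τ k < ‖(g k j : K)‖
  let F : ℕ → ℕ → K := fun k N => ∑ j ∈ sL k, A k j * (g k j : K) ^ N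
  have hF : ∀ k n, ‖u n - F k (ex d n)‖ ≤ C * τ k ^ ex d n := by
    intro k n
    have h1 : ∑ j ∈ s k, A k j * (g k j : K) ^ ex d n = F k (ex d n) +
        ∑ j ∈ (s k).filter (fun j => ¬ τ k < ‖(g k j : K)‖), A k j * (g k j : K) ^ ex d n :=
      (Finset.sum_filter_add_sum_filter_not _ _ _).symm
    have h2 := happ k n
    rw [h1] at h2
    have h3 : ‖∑ j ∈ (s k).filter (fun j => ¬ τ k < ‖(g k j : K)‖),
        A k j * (g k j : K) ^ ex d n‖ ≤ C * τ k ^ ex d n := by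
      refine IsUltrametricDist.norm_sum_le_of_forall_le_of_nonneg
        (mul_nonneg hC (pow_nonneg (hτ0 k) _)) fun j hj => ?_
      rw [Finset.mem_filter, not_lt] at hj
      rw [norm_mul, norm_pow]
      exact mul_le_mul (hg k j hj.1).2 (pow_le_pow_left₀ (norm_nonneg _) hj.2 _)
        (pow_nonneg (norm_nonneg _) _) hC
    have h4 : ∀ a b c : K, a - b = (a - (b + c)) + c := by intros; ring
    rw [h4 (u n) (F k (ex d n)) (∑ j ∈ (s k).filter (fun j => ¬ τ k < ‖(g k j : K)‖),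
        A k j * (g k j : K) ^ ex d n)]
    exact (IsUltrametricDist.norm_add_le_max _ _).trans (max_le h2 h3)
  have hdich : ∀ k, (fun n => F k (M * n + R)) = 0 ∨
      ∃ j ∈ sL k, ∃ c : ℝ, 0 < c ∧ ∀ᶠ n in atTop,
        c * ‖(g k j : K) ^ M‖ ^ n ≤ ‖F k (M * n + R)‖ := by
    intro k
    rcases dominate0 hR _ ((sL k).val.map fun j => (g k j : K) ^ M) rfl (by
      intro μ hμ
      obtain ⟨j, hj, rfl⟩ := Multiset.mem_map.1 hμ
      have hj' : j ∈ s k := (Finset.mem_filter.1 hj).1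
      exact ⟨⟨g k j, (hg k j hj').1, rfl⟩, pow_ne_zero _ (g k j).ne_zero⟩)
      _ (exp_killed (sL k) (A k) (fun j => (g k j : K)) M R) with h | h
    · exact Or.inl h
    · obtain ⟨μ, hμ, c, hc, h⟩ := h
      obtain ⟨j, hj, rfl⟩ := Multiset.mem_map.1 hμ
      exact Or.inr ⟨j, hj, c, hc, h⟩
  by_cases hall : ∀ k, (fun n => F k (M * n + R)) = 0
  · left
    filter_upwards [hsplit, htend.eventually_ge_atTop 1] with j hj hj1
    have hpos : ex d (M' * j + r) ≠ 0 := by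
      have := le_ex d (M' * j + r) hd
      omega
    have h1 : ∀ k, ‖u (M' * j + r)‖ ≤ C * τ k ^ ex d (M' * j + r) := by
      intro k
      have h2 := hF k (M' * j + r)
      have h3 : F k (ex d (M' * j + r)) = 0 := by
        rw [hj]
        exact congrFun (hall k) _
      rwa [h3, sub_zero] at h2
    have h4 : Tendsto (fun k => C * τ k ^ ex d (M' * j + r)) atTop (𝓝 (C * (B * 0) ^ ex d (M' * j + r))) :=
      (((tendsto_pow_atTop_nhds_zero_of_lt_one hκ0.le hκ).const_mul B).pow _).const_mul C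
    rw [mul_zero, zero_pow hpos, mul_zero] at h4
    exact norm_le_zero_iff.1 (ge_of_tendsto' h4 h1)
  · right
    push Not at hall
    obtain ⟨k, hk⟩ := hall
    rcases hdich k with h | ⟨i, hi, c, hc, h⟩
    · exact absurd h hk
    set γ := ‖(g k i : K)‖ with hγ
    have hγτ : τ k < γ := (Finset.mem_filter.1 hi).2
    have hγ0 : 0 < γ := (hτ0 k).trans_lt hγτ
    have h3 : Tendsto (fun n : ℕ => C * (τ k / γ) ^ n) atTop (𝓝 (C * 0)) :=
      (tendsto_pow_atTop_nhds_zero_of_lt_one (div_nonneg (hτ0 k) hγ0.le)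
        ((div_lt_one hγ0).2 hγτ)).const_mul C
    rw [mul_zero] at h3
    have hc' : 0 < c / γ ^ R := div_pos hc (pow_pos hγ0 _)
    filter_upwards [hsplit, hN.eventually h,
      ((ex_tendsto d hd).comp htend).eventually (h3.eventually_lt_const hc')] with j h1 h2 h4 hu
    have h5 := hF k (M' * j + r)
    rw [hu, zero_sub, norm_neg] at h5
    rw [← h1] at h2
    simp only [Function.comp_apply] at h4
    have h6 : ‖(g k i : K) ^ M‖ ^ (ex d (M' * j + r) / M) = γ ^ ex d (M' * j + r) / γ ^ R := by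
      rw [norm_pow, ← pow_mul, eq_div_iff (pow_pos hγ0 _).ne', ← pow_add, ← h1]
    rw [h6] at h2
    have h7 : τ k ^ ex d (M' * j + r) = (τ k / γ) ^ ex d (M' * j + r) * γ ^ ex d (M' * j + r) := by
      rw [div_pow, div_mul_cancel₀ _ (pow_pos hγ0 _).ne']
    rw [h7, ← mul_assoc] at h5
    have h8 := mul_lt_mul_of_pos_right h4 (pow_pos hγ0 (ex d (M' * j + r)))
    have h9 : c * (γ ^ ex d (M' * j + r) / γ ^ R) = c / γ ^ R * γ ^ ex d (M' * j + r) := by
      ring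
    rw [h9] at h2
    linarith

end final

end Pool.Agent.N137.DR
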