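import Pool.Agent.N137.DR.Core
import Pool.Agent.W600.DM.Proj

set_option autoImplicit false

/-!
# Dominated orbits over a field with an absolute value of residue characteristic zero
-/

namespace Pool.Agent.N137.DR

open Filter Topology MvPolynomial Pool.Agent.N137.AO

section

variable {L : Type} [Field L] (v : AbsoluteValue L ℝ)

/-- the embedding in the completion -/
noncomputable def embL : L →+* v.Completion :=
  (UniformSpace.Completion.coeRingHom (α := WithAbs v)).comp (WithAbs.equiv v).symm.toRingHom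

theorem norm_embL (z : L) : ‖embL v z‖ = v z := by
  show ‖((((WithAbs.equiv v).symm z : WithAbs v)) : v.Completion)‖ = v z
  rw [UniformSpace.Completion.norm_coe]
  rfl

theorem ultraL (hv : IsNonarchimedean v) : IsUltrametricDist v.Completion := by
  refine IsUltrametricDist.isUltrametricDist_of_isNonarchimedean_norm ?_
  intro a b
  refine UniformSpace.Completion.induction_on₂ a b ?_ ?_
  · exact isClosed_le (by fun_prop) (by fun_prop)
  · intro a b
    rw [← UniformSpace.Completion.coe_add, UniformSpace.Completion.norm_coe,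
      UniformSpace.Completion.norm_coe, UniformSpace.Completion.norm_coe]
    exact hv _ _

open Cardinal in
theorem cardL (hL : #L ≤ 𝔠) : #v.Completion ≤ 𝔠 := by
  have h1 : ∀ y : v.Completion, ∃ s : ℕ → L, Tendsto (fun n => embL v (s n)) atTop (𝓝 y) := by
    intro y
    have h2 : y ∈ closure (Set.range (embL v)) := by
      have h3 := (UniformSpace.Completion.denseRange_coe (α := WithAbs v)) y
      refine closure_mono ?_ h3
      rintro _ ⟨z, rfl⟩
      exact ⟨WithAbs.equiv v z, rfl⟩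
    obtain ⟨s, hs, hsy⟩ := mem_closure_iff_seq_limit.1 h2
    choose u hu using hs
    refine ⟨u, ?_⟩
    simp only [hu]
    exact hsy
  choose s hs using h1
  have h2 : Function.Injective s := by
    intro y z hyz
    have h3 := hs y
    rw [hyz] at h3
    exact tendsto_nhds_unique h3 (hs z)
  refine (mk_le_of_injective h2).trans ?_
  rw [mk_arrow, lift_id, lift_id, mk_nat, ← continuum_power_aleph0]
  exact power_le_power_right hL

theorem exists_kappa {Q : Type} [Finite Q] (A B : Q → ℝ) (h : ∀ q, A q < B q) :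
    ∃ κ : ℝ, 0 < κ ∧ κ < 1 ∧ ∀ q, A q ≤ κ * B q := by
  have h1 : ∀ᶠ κ : ℝ in 𝓝[<] 1, ∀ q, A q < κ * B q := by
    rw [eventually_all]
    intro q
    have h2 : Tendsto (fun κ : ℝ => κ * B q) (𝓝 1) (𝓝 (1 * B q)) :=
      (continuous_id.mul continuous_const).tendsto 1
    rw [one_mul] at h2
    exact (h2.eventually_const_lt (h q)).filter_mono nhdsWithin_le_nhds
  have h3 : ∀ᶠ κ : ℝ in 𝓝[<] 1, κ < 1 := self_mem_nhdsWithin
  have h4 : ∀ᶠ κ : ℝ in 𝓝[<] 1, 0 < κ :=
    (eventually_gt_nhds one_pos).filter_mono nhdsWithin_le_nhds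
  obtain ⟨κ, ⟨h5, h6⟩, h7⟩ := ((h1.and h3).and h4).exists
  exact ⟨κ, h7, h6, fun q => (h5 q).le⟩

variable {ι : Type} [Fintype ι]

open Cardinal in
theorem gen (hL : #L ≤ 𝔠) (hv : IsNonarchimedean v) (hn : ∀ n : ℕ, n ≠ 0 → v n = 1) {d : ℕ}
    (hd : 2 ≤ d) (a : ι → L) (ha : ∀ i, a i ≠ 0) (P : ι → MvPolynomial ι L) (x : ℕ → ι → L)
    (hx : ∀ n i, x (n + 1) i = a i * x n i ^ d + eval (x n) (P i)) (hx0 : ∀ i, x 0 i ≠ 0)
    (c1 : ∀ i, ∀ β ∈ (P i).support,
      v (coeff β (P i)) * ∏ j, v (x 0 j) ^ (β j) < v (a i) * v (x 0 i) ^ d)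
    (c2 : ∀ i, ∀ β ∈ (P i).support,
      ∏ j, (v (a j) * v (x 0 j) ^ (d - 1)) ^ (β j) < (v (a i) * v (x 0 i) ^ (d - 1)) ^ d) :
    ∃ M : ℕ, M ≠ 0 ∧ ∀ (h : MvPolynomial ι L) (r : ℕ),
      (∀ᶠ j in atTop, eval (x (M * j + r)) h = 0) ∨
      (∀ᶠ j in atTop, eval (x (M * j + r)) h ≠ 0) := by
  have hU := ultraL v hv
  obtain ⟨κ, hκ0, hκ1, hκ⟩ := exists_kappa (Q := (Σ i : ι, ↥((P i).support)) × Bool)
    (fun q => if q.2 then v (coeff (q.1.2 : ι →₀ ℕ) (P q.1.1)) *
        ∏ j, v (x 0 j) ^ ((q.1.2 : ι →₀ ℕ) j)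
      else ∏ j, (v (a j) * v (x 0 j) ^ (d - 1)) ^ ((q.1.2 : ι →₀ ℕ) j))
    (fun q => if q.2 then v (a q.1.1) * v (x 0 q.1.1) ^ d
      else (v (a q.1.1) * v (x 0 q.1.1) ^ (d - 1)) ^ d)
    (by
      rintro ⟨⟨i, β⟩, b⟩
      cases b
      · simpa using c2 i β β.2
      · simpa using c1 i β β.2)
  have hinj : Function.Injective (embL v) := (embL v).injective
  have hsupp : ∀ i, (MvPolynomial.map (embL v) (P i)).support = (P i).support := fun i =>
    support_map_of_injective _ hinj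
  let D : DatE v.Completion ι :=
    { d := d
      hd := hd
      hn := fun n hn0 => by rw [← map_natCast (embL v) n, norm_embL]; exact hn n hn0
      a := fun i => embL v (a i)
      ha := fun i => (map_ne_zero _).2 (ha i)
      P := fun i => MvPolynomial.map (embL v) (P i)
      y := fun n i => embL v (x n i)
      hy := fun n i => by
        rw [Pool.Agent.W600.DM.eval_hom, ← map_pow, ← map_mul, ← map_add, ← hx]
      y0 := fun i => (map_ne_zero _).2 (hx0 i)
      κ := κ
      κ_pos := hκ0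
      κ_lt := hκ1
      c1 := fun i β hβ => by
        rw [hsupp] at hβ
        have h1 := hκ (⟨i, ⟨β, hβ⟩⟩, true)
        rw [coeff_map, norm_embL]
        simpa [norm_embL] using h1
      c2 := fun i β hβ => by
        rw [hsupp] at hβ
        have h1 := hκ (⟨i, ⟨β, hβ⟩⟩, false)
        simpa [norm_embL] using h1 }
  obtain ⟨Ψ, hΨ⟩ := exists_hom v.Completion (fun n hn0 => by
    rw [← map_natCast (embL v) n, norm_embL]
    exact hn n hn0) (cardL v hL)
  obtain ⟨M, hM, h⟩ := D.core Ψ hΨ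
  refine ⟨M, hM, fun q r => ?_⟩
  have key : ∀ n, eval (D.y n) (MvPolynomial.map (embL v) q) = 0 ↔ eval (x n) q = 0 := by
    intro n
    have h1 : eval (D.y n) (MvPolynomial.map (embL v) q) = embL v (eval (x n) q) :=
      Pool.Agent.W600.DM.eval_hom (embL v) (x n) q
    rw [h1, map_eq_zero]
  rcases h (MvPolynomial.map (embL v) q) r with h1 | h1
  · left
    filter_upwards [h1] with j hj
    exact (key _).1 hj
  · right
    filter_upwards [h1] with j hj hj'
    exact hj ((key _).2 hj')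

end

theorem evPer_of (M : ℕ) (hM : M ≠ 0) (A : Set ℕ)
    (h : ∀ r : ℕ, (∀ᶠ j in atTop, M * j + r ∈ A) ∨ (∀ᶠ j in atTop, M * j + r ∉ A)) :
    Pool.Agent.W600.DM.EvPer M A := by
  have h1 : ∀ r : ℕ, ∃ n₀ : ℕ, (∀ n, n₀ ≤ n → M * n + r ∈ A) ∨ (∀ n, n₀ ≤ n → M * n + r ∉ A) := by
    intro r
    rcases h r with h | h
    · obtain ⟨n₀, hn₀⟩ := eventually_atTop.1 h
      exact ⟨n₀, Or.inl hn₀⟩
    · obtain ⟨n₀, hn₀⟩ := eventually_atTop.1 h
      exact ⟨n₀, Or.inr hn₀⟩
  choose f hf using h1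
  set n₀ := ∑ r ∈ Finset.range M, f r with hn₀
  have hfn : ∀ r, r < M → f r ≤ n₀ := fun r hr =>
    Finset.single_le_sum (f := f) (fun _ _ => Nat.zero_le _) (Finset.mem_range.2 hr)
  have hMpos : 0 < M := Nat.pos_of_ne_zero hM
  refine ⟨M * n₀, fun n hn => ?_⟩
  have hr : n % M < M := Nat.mod_lt _ hMpos
  have hdiv : M * (n / M) + n % M = n := Nat.div_add_mod n M
  have hq : n₀ ≤ n / M := (Nat.le_div_iff_mul_le hMpos).2 (by rw [mul_comm]; exact hn)
  have e1 : n + M = M * (n / M + 1) + n % M := by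
    conv_lhs => rw [← hdiv]
    ring
  rcases hf (n % M) with h2 | h2
  · refine ⟨fun _ => ?_, fun _ => ?_⟩
    · rw [e1]
      exact h2 _ ((hfn _ hr).trans (hq.trans (Nat.le_succ _)))
    · have := h2 (n / M) ((hfn _ hr).trans hq)
      rwa [hdiv] at this
  · refine ⟨fun h3 => ?_, fun h3 => ?_⟩
    · have := h2 (n / M) ((hfn _ hr).trans hq)
      rw [hdiv] at this
      exact absurd h3 this
    · rw [e1] at h3
      exact absurd h3 (h2 _ ((hfn _ hr).trans (hq.trans (Nat.le_succ _))))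

/-- **The theorem for points dominated at time zero.** -/
theorem dmlAt {m d : ℕ} (hd : 2 ≤ d) {L : Type} [Field L] (v : AbsoluteValue L ℝ)
    (hv : IsNonarchimedean v) (hn : ∀ n : ℕ, n ≠ 0 → v n = 1) (σ : L →+* ℂ)
    (a : Fin m → L) (ha : ∀ j, a j ≠ 0) (P : Fin m → MvPolynomial (Fin m) L)
    (α : Fin m → L) (hα : ∀ j, α j ≠ 0)
    (c1 : ∀ j, ∀ β ∈ (P j).support,
      v (coeff β (P j)) * ∏ i, v (α i) ^ (β i) < v (a j) * v (α j) ^ d)
    (c2 : ∀ j, ∀ β ∈ (P j).support,
      ∏ i, (v (a i) * v (α i) ^ (d - 1)) ^ (β i) < (v (a j) * v (α j) ^ (d - 1)) ^ d) :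
    Pool.Agent.W600.DM.DMLAt (fun j => MvPolynomial.map σ (C (a j) * X j ^ d + P j))
      (fun j => σ (α j)) := by
  classical
  let x : ℕ → Fin m → L := fun n =>
    (fun z : Fin m → L => fun j => eval z (C (a j) * X j ^ d + P j))^[n] α
  have hx : ∀ n j, x (n + 1) j = a j * x n j ^ d + eval (x n) (P j) := by
    intro n j
    simp only [x]
    rw [Function.iterate_succ_apply']
    simp
  have hL : Cardinal.mk L ≤ Cardinal.continuum := by
    rw [← Cardinal.mk_complex]
    exact Cardinal.mk_le_of_injective σ.injective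
  obtain ⟨M, hM, h⟩ := gen v hL hv hn hd a ha P x hx hα c1 c2
  have horb : ∀ n, (fun z : Fin m → ℂ => fun i =>
      eval z (MvPolynomial.map σ (C (a i) * X i ^ d + P i)))^[n]
      (fun j => σ (α j)) = fun j => σ (x n j) := by
    intro n
    induction n with
    | zero => rfl
    | succ n ih =>
      rw [Function.iterate_succ_apply', ih]
      funext j
      rw [Pool.Agent.W600.DM.eval_hom]
      simp only [x]
      rw [Function.iterate_succ_apply']
  intro V
  obtain ⟨T, hT⟩ := Pool.Agent.W600.DM.all_families σ (M := M) (Nat.one_le_iff_ne_zero.2 hM)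
    (x := x) (fun q => evPer_of M hM _ fun r => h q r) V
  refine ⟨T, ?_⟩
  rw [← hT]
  ext n
  simp only [horb]

end Pool.Agent.N137.DR
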