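import Mathlib

set_option autoImplicit false
set_option linter.style.haveILetI false

/-!
# Real absolute values on finitely generated fields with given center
-/

namespace Pool.Agent.N137.DR

open IsDedekindDomain

theorem place_of_dedekind (C : Type) [CommRing C] [IsDedekindDomain C] (P : HeightOneSpectrum C) :
    ∃ (K : Type) (_ : Field K) (φ : C →+* K) (v : AbsoluteValue K ℝ), Function.Injective φ ∧
      IsNonarchimedean v ∧ (∀ x, v (φ x) ≤ 1) ∧ (∀ x, x ∈ P.asIdeal → v (φ x) < 1) ∧
      ∀ x, x ∉ P.asIdeal → v (φ x) = 1 := by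
  have hb : (1 : NNReal) < 2 := by norm_num
  refine ⟨FractionRing C, inferInstance, algebraMap C (FractionRing C),
    P.adicAbv hb, IsFractionRing.injective C (FractionRing C), P.isNonarchimedean_adicAbv hb,
    fun x => P.adicAbv_coe_le_one hb x, fun x hx => (P.adicAbv_coe_lt_one_iff hb x).2 hx,
    fun x hx => (P.adicAbv_coe_eq_one_iff hb x).2 hx⟩

theorem place_of_normal (B : Type) [CommRing B] [IsDomain B] [IsNoetherianRing B]
    [IsIntegrallyClosed B] (𝔐 : Ideal B) [𝔐.IsPrime] (u : B) (hu : u ∈ 𝔐) (hu0 : u ≠ 0) :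
    ∃ (K : Type) (_ : Field K) (φ : B →+* K) (v : AbsoluteValue K ℝ), Function.Injective φ ∧
      IsNonarchimedean v ∧ (∀ x, v (φ x) ≤ 1) ∧ v (φ u) < 1 ∧ ∀ x, x ∉ 𝔐 → v (φ x) = 1 := by
  classical
  obtain ⟨𝔓, h𝔓, h𝔓le⟩ := Ideal.exists_minimalPrimes_le (I := Ideal.span {u}) (J := 𝔐)
    ((Ideal.span_singleton_le_iff_mem 𝔐).2 hu)
  haveI : 𝔓.IsPrime := h𝔓.isPrime
  have hht : 𝔓.height ≤ 1 := Ideal.height_le_one_of_isPrincipal_of_mem_minimalPrimes _ 𝔓 h𝔓
  have hu𝔓 : u ∈ 𝔓 := (Ideal.span_singleton_le_iff_mem 𝔓).1 h𝔓.1.2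
  have hinj : Function.Injective (algebraMap B (Localization.AtPrime 𝔓)) :=
    IsLocalization.injective (Localization.AtPrime 𝔓) 𝔓.primeCompl_le_nonZeroDivisors
  haveI : IsNoetherianRing (Localization.AtPrime 𝔓) :=
    IsLocalization.isNoetherianRing 𝔓.primeCompl (Localization.AtPrime 𝔓) inferInstance
  haveI : IsDomain (Localization.AtPrime 𝔓) :=
    IsLocalization.isDomain_localization 𝔓.primeCompl_le_nonZeroDivisors
  haveI : IsIntegrallyClosed (Localization.AtPrime 𝔓) :=
    isIntegrallyClosed_of_isLocalization (Localization.AtPrime 𝔓) 𝔓.primeCompl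
    𝔓.primeCompl_le_nonZeroDivisors
  have hmax : (IsLocalRing.maximalIdeal (Localization.AtPrime 𝔓)).height ≤ 1 := by
    rw [← IsLocalization.height_under 𝔓.primeCompl
      (IsLocalRing.maximalIdeal (Localization.AtPrime 𝔓)),
      Localization.AtPrime.under_maximalIdeal]
    exact hht
  have hprime : ∀ P : Ideal (Localization.AtPrime 𝔓), P ≠ ⊥ → P.IsPrime →
      P = IsLocalRing.maximalIdeal (Localization.AtPrime 𝔓) := by
    intro P hP hPp
    by_contra hne
    have hlt : P < IsLocalRing.maximalIdeal (Localization.AtPrime 𝔓) :=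
      lt_of_le_of_ne (IsLocalRing.le_maximalIdeal hPp.ne_top) hne
    haveI := hPp
    have h1 : P.height < (IsLocalRing.maximalIdeal (Localization.AtPrime 𝔓)).height :=
      Ideal.height_strict_mono_of_isPrime_of_isPrime hlt
    have h3 : P.height = 0 := Order.lt_one_iff.1 (h1.trans_le hmax)
    exact hP (Ideal.height_eq_zero_iff_eq_bot.1 h3)
  have htf : IsDedekindDomain (Localization.AtPrime 𝔓) ↔
      (IsIntegrallyClosed (Localization.AtPrime 𝔓) ∧
      ∀ P : Ideal (Localization.AtPrime 𝔓), P ≠ ⊥ → P.IsPrime →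
        P = IsLocalRing.maximalIdeal (Localization.AtPrime 𝔓)) :=
    (tfae_of_isNoetherianRing_of_isLocalRing_of_isDomain (Localization.AtPrime 𝔓)).out 2 3
  haveI hD : IsDedekindDomain (Localization.AtPrime 𝔓) := htf.2 ⟨inferInstance, hprime⟩
  have hmem : ∀ x : B, algebraMap B (Localization.AtPrime 𝔓) x ∈
      IsLocalRing.maximalIdeal (Localization.AtPrime 𝔓) ↔ x ∈ 𝔓 := by
    intro x
    have h1 : (IsLocalRing.maximalIdeal (Localization.AtPrime 𝔓)).under B = 𝔓 :=
      Localization.AtPrime.under_maximalIdeal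
    conv_rhs => rw [← h1]
    rfl
  have hne : IsLocalRing.maximalIdeal (Localization.AtPrime 𝔓) ≠ ⊥ := by
    intro h
    have h1 := (hmem u).2 hu𝔓
    rw [h, Ideal.mem_bot] at h1
    exact hu0 (hinj (by rw [h1, map_zero]))
  let P : HeightOneSpectrum (Localization.AtPrime 𝔓) :=
    ⟨IsLocalRing.maximalIdeal (Localization.AtPrime 𝔓), inferInstance, hne⟩
  obtain ⟨K, hK, φ, v, h1, h2, h3, h4, h5⟩ := place_of_dedekind (Localization.AtPrime 𝔓) P
  refine ⟨K, hK, φ.comp (algebraMap B _), v, h1.comp hinj, h2, fun x => h3 _, ?_, ?_⟩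
  · exact h4 _ ((hmem u).2 hu𝔓)
  · intro x hx
    exact h5 _ fun h => hx (h𝔓le ((hmem x).1 h))

theorem exists_place (k : Type) [Field k] [CharZero k] (A : Type) [CommRing A] [IsDomain A]
    [Algebra k A] [Algebra.FiniteType k A] (𝔪 : Ideal A) [𝔪.IsPrime] (u : A) (hu : u ∈ 𝔪)
    (hu0 : u ≠ 0) :
    ∃ (K : Type) (_ : Field K) (φ : A →+* K) (v : AbsoluteValue K ℝ), Function.Injective φ ∧
      IsNonarchimedean v ∧ (∀ x, v (φ x) ≤ 1) ∧ v (φ u) < 1 ∧ ∀ x, x ∉ 𝔪 → v (φ x) = 1 := by
  classical
  obtain ⟨s, g, hg, hint⟩ := exists_finite_inj_algHom_of_fg k A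
  letI : Algebra (MvPolynomial (Fin s) k) A := g.toRingHom.toAlgebra
  haveI : Module.Finite (MvPolynomial (Fin s) k) A := hint
  haveI : FaithfulSMul (MvPolynomial (Fin s) k) A :=
    (faithfulSMul_iff_algebraMap_injective (MvPolynomial (Fin s) k) A).2 hg
  haveI : Algebra.IsIntegral (MvPolynomial (Fin s) k) A := inferInstance
  letI : Algebra (FractionRing (MvPolynomial (Fin s) k)) (FractionRing A) :=
    FractionRing.liftAlgebra (MvPolynomial (Fin s) k) (FractionRing A)
  haveI : IsScalarTower (MvPolynomial (Fin s) k) (FractionRing (MvPolynomial (Fin s) k))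
    (FractionRing A) := FractionRing.isScalarTower_liftAlgebra _ _
  haveI : Module.IsTorsionFree (MvPolynomial (Fin s) k) A := inferInstance
  haveI : FiniteDimensional (FractionRing (MvPolynomial (Fin s) k)) (FractionRing A) :=
    inferInstance
  haveI : CharZero (FractionRing (MvPolynomial (Fin s) k)) := inferInstance
  haveI : IsNoetherianRing (integralClosure (MvPolynomial (Fin s) k) (FractionRing A)) :=
    integralClosure.isNoetherianRing (A := MvPolynomial (Fin s) k)
      (K := FractionRing (MvPolynomial (Fin s) k)) (FractionRing A)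
  haveI : IsIntegrallyClosed (integralClosure (MvPolynomial (Fin s) k) (FractionRing A)) :=
    integralClosure.isIntegrallyClosedOfFiniteExtension (FractionRing (MvPolynomial (Fin s) k))
  have hintA : ∀ x : A, IsIntegral (MvPolynomial (Fin s) k) (algebraMap A (FractionRing A) x) :=
    fun x => (Algebra.IsIntegral.isIntegral (R := MvPolynomial (Fin s) k) x).algebraMap
  let j : A →ₐ[MvPolynomial (Fin s) k] integralClosure (MvPolynomial (Fin s) k) (FractionRing A) :=
    (IsScalarTower.toAlgHom (MvPolynomial (Fin s) k) A (FractionRing A)).codRestrict _ hintA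
  have hj : Function.Injective j := by
    intro x y hxy
    have h1 : (j x : FractionRing A) = (j y : FractionRing A) := by rw [hxy]
    exact IsFractionRing.injective A (FractionRing A) h1
  letI : Algebra A (integralClosure (MvPolynomial (Fin s) k) (FractionRing A)) :=
    j.toRingHom.toAlgebra
  haveI : IsScalarTower (MvPolynomial (Fin s) k) A
      (integralClosure (MvPolynomial (Fin s) k) (FractionRing A)) :=
    IsScalarTower.of_algebraMap_eq fun x => (j.commutes x).symm
  haveI : Algebra.IsIntegral A (integralClosure (MvPolynomial (Fin s) k) (FractionRing A)) :=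
    Algebra.IsIntegral.tower_top (R := MvPolynomial (Fin s) k)
  obtain ⟨Q, hQ, hQm⟩ := Ideal.exists_ideal_over_prime_of_isIntegral_of_isDomain
    (S := integralClosure (MvPolynomial (Fin s) k) (FractionRing A)) 𝔪 (by
      have : RingHom.ker (algebraMap A
        (integralClosure (MvPolynomial (Fin s) k) (FractionRing A))) = ⊥ :=
        (RingHom.injective_iff_ker_eq_bot _).1 hj
      rw [this]
      exact bot_le)
  have hmem : ∀ x, j x ∈ Q ↔ x ∈ 𝔪 := by
    intro x
    rw [← hQm]
    rfl
  obtain ⟨K, hK, φ, v, h1, h2, h3, h4, h5⟩ := place_of_normal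
    (integralClosure (MvPolynomial (Fin s) k) (FractionRing A)) Q (j u) ((hmem u).2 hu)
    (fun h => hu0 (hj (by rw [h, map_zero])))
  exact ⟨K, hK, φ.comp j.toRingHom, v, h1.comp hj, h2, fun x => h3 _, h4,
    fun x hx => h5 _ fun h => hx ((hmem x).1 h)⟩

end Pool.Agent.N137.DR
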