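import Pool.Agent.N137.DR.Gen
import Pool.Agent.N137.DR.Place

set_option autoImplicit false
set_option linter.style.haveILetI false

/-!
# Points whose closure meets the hyperplane at infinity off the coordinate hyperplanes
-/

namespace Pool.Agent.N137.DR

open MvPolynomial Pool.Agent.W600.DM

section

variable {k : Type} [Field k] [Algebra k ℂ] {m : ℕ}

theorem sum_of_homog {R : Type} [CommSemiring R] {G : MvPolynomial (Fin m) R} {e : ℕ}
    (hG : G.IsHomogeneous e) {β : Fin m →₀ ℕ} (hβ : β ∈ G.support) : ∑ i, β i = e := by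
  have h1 := hG (mem_support_iff.1 hβ)
  rw [Finsupp.weight_apply, Finsupp.sum_fintype _ _ (fun i => by simp)] at h1
  simpa using h1

theorem aeval_smul_homog {G : MvPolynomial (Fin m) k} {e : ℕ}
    (hG : G.IsHomogeneous e) (c : ℂ) (z : Fin m → ℂ) :
    aeval (fun j => c * z j) G = c ^ e * aeval z G := by
  rw [aeval_def, aeval_def, eval₂_eq', eval₂_eq', Finset.mul_sum]
  refine Finset.sum_congr rfl fun β hβ => ?_
  rw [← sum_of_homog hG hβ, ← Finset.prod_pow_eq_pow_sum]
  simp only [mul_pow, Finset.prod_mul_distrib]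
  ring

/-- passing from forms to polynomials in the ratios of the coordinates -/
theorem ker_le_of_forms (y w : Fin m → ℂ) (i0 : Fin m) (hy : y i0 ≠ 0) (hw : w i0 ≠ 0)
    (h : ∀ (e : ℕ) (G : MvPolynomial (Fin m) k), G.IsHomogeneous e → aeval y G = 0 →
      aeval w G = 0) (G : MvPolynomial (Fin m) k) (hG : aeval (fun j => y j / y i0) G = 0) :
    aeval (fun j => w j / w i0) G = 0 := by
  classical
  set D := G.totalDegree with hD
  let H : MvPolynomial (Fin m) k :=
    ∑ e ∈ Finset.range (D + 1), homogeneousComponent e G * X i0 ^ (D - e)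
  have hH : H.IsHomogeneous D := by
    refine IsHomogeneous.sum _ _ _ fun e he => ?_
    have h1 := (homogeneousComponent_isHomogeneous e G).mul ((isHomogeneous_X k i0).pow (D - e))
    have h2 : e + 1 * (D - e) = D := by
      have := Finset.mem_range.1 he
      omega
    rw [h2] at h1
    exact h1
  have key : ∀ z : Fin m → ℂ, z i0 ≠ 0 →
      aeval z H = z i0 ^ D * aeval (fun j => z j / z i0) G := by
    intro z hz
    have h1 : G = ∑ e ∈ Finset.range (D + 1), homogeneousComponent e G :=
      (sum_homogeneousComponent G).symm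
    conv_rhs => rw [h1]
    simp only [H, map_sum, map_mul, map_pow, aeval_X, Finset.mul_sum]
    refine Finset.sum_congr rfl fun e he => ?_
    have he' : e ≤ D := by
      have := Finset.mem_range.1 he
      omega
    have h3 : aeval z (homogeneousComponent e G) =
        z i0 ^ e * aeval (fun j => z j / z i0) (homogeneousComponent e G) := by
      rw [← aeval_smul_homog (homogeneousComponent_isHomogeneous e G)]
      congr 2
      funext j
      field_simp
    rw [h3]
    have : z i0 ^ D = z i0 ^ e * z i0 ^ (D - e) := by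
      rw [← pow_add]
      congr 1
      omega
    rw [this]
    ring
  have h1 : aeval y H = 0 := by rw [key y hy, hG, mul_zero]
  have h2 := h D H hH h1
  rw [key w hw] at h2
  exact (mul_eq_zero.1 h2).resolve_left (pow_ne_zero _ hw)

/-- the real inequality -/
theorem prod_lt_pow {N d : ℕ} {r : Fin (N + 1) → ℝ} {R : ℝ} (hR : 1 < R) (h0 : r 0 = 1)
    (h1 : ∀ i : Fin N, r i.succ = R) {β : Fin (N + 1) →₀ ℕ} (hβ : ∑ i, β i = d) (hβ0 : 1 ≤ β 0) :
    ∏ i, r i ^ (β i) < R ^ d := by
  rw [Fin.prod_univ_succ, h0, one_pow, one_mul]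
  simp only [h1]
  rw [Finset.prod_pow_eq_pow_sum]
  refine pow_lt_pow_right₀ hR ?_
  rw [Fin.sum_univ_succ] at hβ
  omega

theorem generic {N d : ℕ} [CharZero k] (hN : 1 ≤ N) (hd : 2 ≤ d) (a : Fin (N + 1) → k)
    (ha : ∀ j, a j ≠ 0) (Q : Fin N → MvPolynomial (Fin (N + 1)) k)
    (hQ : ∀ i, (Q i).IsHomogeneous (d - 1)) (x P : Fin N → ℂ) (hP : ∀ i, P i ≠ 0)
    (h : ∀ (e : ℕ) (G : MvPolynomial (Fin (N + 1)) k), G.IsHomogeneous e →
      aeval (Fin.cons 1 x : Fin (N + 1) → ℂ) G = 0 →
      aeval (Fin.cons 0 P : Fin (N + 1) → ℂ) G = 0) :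
    DMLAt (fun j => map (algebraMap k ℂ) (sys d a Q j)) (Fin.cons 1 x : Fin (N + 1) → ℂ) := by
  classical
  have hx : ∀ i, x i ≠ 0 := by
    intro i hi
    have h1 := h 1 (X i.succ) (isHomogeneous_X k _) (by simpa using hi)
    rw [aeval_X, Fin.cons_succ] at h1
    exact hP i h1
  let i0 : Fin N := ⟨0, hN⟩
  let y : Fin (N + 1) → ℂ := fun j => (Fin.cons 1 x : Fin (N + 1) → ℂ) j / x i0
  let w : Fin (N + 1) → ℂ := fun j => (Fin.cons 0 P : Fin (N + 1) → ℂ) j / P i0
  let π : MvPolynomial (Fin (N + 1)) k →ₐ[k] ℂ := aeval y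
  let π' : MvPolynomial (Fin (N + 1)) k →ₐ[k] ℂ := aeval w
  have hker : ∀ G, π G = 0 → π' G = 0 := fun G hG =>
    ker_le_of_forms (Fin.cons 1 x) (Fin.cons 0 P) i0.succ (by simpa using hx i0)
      (by simpa using hP i0) h G hG
  let I : Ideal (MvPolynomial (Fin (N + 1)) k) := RingHom.ker π
  haveI : I.IsPrime := RingHom.ker_isPrime π
  let A := MvPolynomial (Fin (N + 1)) k ⧸ I
  let ψ : A →+* ℂ := Ideal.Quotient.lift I π.toRingHom fun G hG => hG
  let ρ : A →+* ℂ := Ideal.Quotient.lift I π'.toRingHom fun G hG => hker G hG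
  let q : MvPolynomial (Fin (N + 1)) k →+* A := Ideal.Quotient.mk I
  have hψq : ∀ G, ψ (q G) = π G := fun G => Ideal.Quotient.lift_mk _ _ _
  have hρq : ∀ G, ρ (q G) = π' G := fun G => Ideal.Quotient.lift_mk _ _ _
  have hψ : Function.Injective ψ := by
    refine (injective_iff_map_eq_zero ψ).2 fun z hz => ?_
    obtain ⟨G, rfl⟩ := Ideal.Quotient.mk_surjective z
    exact Ideal.Quotient.eq_zero_iff_mem.2 ((hψq G).symm.trans hz)
  have hu0 : q (X 0) ≠ 0 := by
    intro h0
    have h1 := hψq (X 0)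
    rw [h0, map_zero] at h1
    have h2 : π (X 0) = 1 / x i0 := by simp [π, y]
    rw [h2] at h1
    exact one_div_ne_zero (hx i0) h1.symm
  have hu : q (X 0) ∈ RingHom.ker ρ := by
    rw [RingHom.mem_ker, hρq]
    simp [π', w]
  haveI : (RingHom.ker ρ).IsPrime := RingHom.ker_isPrime ρ
  have hXj : ∀ i : Fin N, q (X i.succ) ∉ RingHom.ker ρ := by
    intro i hi
    rw [RingHom.mem_ker, hρq] at hi
    have h2 : π' (X i.succ) = P i / P i0 := by simp [π', w]
    rw [h2] at hi
    exact div_ne_zero (hP i) (hP i0) hi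
  obtain ⟨K, hK, φ, v', hφ, hv', hv1, hvu, hv⟩ :=
    exists_place k A (RingHom.ker ρ) (q (X 0)) hu hu0
  let L := FractionRing A
  let F : L →+* K := IsFractionRing.lift hφ
  let σ : L →+* ℂ := IsFractionRing.lift hψ
  let v : AbsoluteValue L ℝ := v'.comp F.injective
  have hF : ∀ z : A, F (algebraMap A L z) = φ z := fun z => IsFractionRing.lift_algebraMap hφ z
  have hσ : ∀ z : A, σ (algebraMap A L z) = ψ z := fun z => IsFractionRing.lift_algebraMap hψ z
  have hvA : ∀ z : A, v (algebraMap A L z) = v' (φ z) := by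
    intro z
    show v' (F (algebraMap A L z)) = _
    rw [hF]
  let ck : k →+* L := (algebraMap A L).comp (algebraMap k A)
  have hvk : ∀ c : k, c ≠ 0 → v (ck c) = 1 := by
    intro c hc
    have h1 : v (ck c) ≤ 1 := by
      show v (algebraMap A L _) ≤ 1
      rw [hvA]
      exact hv1 _
    have h2 : v (ck c⁻¹) ≤ 1 := by
      show v (algebraMap A L _) ≤ 1
      rw [hvA]
      exact hv1 _
    have h3 : v (ck c) * v (ck c⁻¹) = 1 := by
      rw [← map_mul v, ← map_mul ck, mul_inv_cancel₀ hc, map_one, map_one]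
    nlinarith [v.nonneg (ck c), v.nonneg (ck c⁻¹)]
  have hσk : ∀ c : k, σ (ck c) = algebraMap k ℂ c := by
    intro c
    show σ (algebraMap A L _) = _
    rw [hσ]
    exact (hψq (C c)).trans (by simp [π])
  have hvn : IsNonarchimedean v := by
    intro z z'
    show v' (F (z + z')) ≤ max (v' (F z)) (v' (F z'))
    rw [map_add]
    exact hv' _ _
  have hn : ∀ n : ℕ, n ≠ 0 → v n = 1 := by
    intro n hn
    have h1 : (n : L) = ck (n : k) := by rw [map_natCast]
    rw [h1]
    exact hvk _ (Nat.cast_ne_zero.2 hn)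
  have hq0 : algebraMap A L (q (X 0)) ≠ 0 := fun h0 =>
    hu0 (IsFractionRing.injective A L (by rw [h0, map_zero]))
  let α : Fin (N + 1) → L := fun j => algebraMap A L (q (X j)) / algebraMap A L (q (X 0))
  have hα0 : α 0 = 1 := div_self hq0
  have hv0 : v (α 0) = 1 := by rw [hα0, map_one]
  set R : ℝ := 1 / v (algebraMap A L (q (X 0))) with hRdef
  have hu1 : v (algebraMap A L (q (X 0))) < 1 := by rw [hvA]; exact hvu
  have hR : 1 < R := by
    rw [hRdef]
    exact one_lt_one_div (v.pos hq0) hu1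
  have hvs : ∀ i : Fin N, v (α i.succ) = R := by
    intro i
    show v (algebraMap A L (q (X i.succ)) / algebraMap A L (q (X 0))) = R
    rw [map_div₀, hvA (q (X i.succ)), hv _ (hXj i)]
  have hσα : (fun j => σ (α j)) = (Fin.cons 1 x : Fin (N + 1) → ℂ) := by
    funext j
    have h1 : σ (α j) = y j / y 0 := by
      show σ (algebraMap A L (q (X j)) / algebraMap A L (q (X 0))) = _
      rw [map_div₀, hσ, hσ, hψq, hψq]
      simp [π]
    rw [h1]
    refine Fin.cases ?_ (fun i => ?_) j
    · simp [y, hx i0]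
    · simp [y]
      field_simp [hx i0]
  let Q' : Fin (N + 1) → MvPolynomial (Fin (N + 1)) k := Fin.cons 0 (fun i => X 0 * Q i)
  have hsys : ∀ j, sys d a Q j = C (a j) * X j ^ d + Q' j := by
    intro j
    refine Fin.cases ?_ (fun i => ?_) j
    · simp [sys, Q']
    · simp [sys, Q']
  have hQ' : ∀ j, ∀ β ∈ (map ck (Q' j)).support, ∃ i : Fin N, j = i.succ ∧ ∑ l, β l = d ∧
      1 ≤ β 0 ∧ v (coeff β (map ck (Q' j))) ≤ 1 := by
    intro j β hβ
    rw [support_map_of_injective _ ck.injective] at hβ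
    have hcoeff : v (coeff β (map ck (Q' j))) ≤ 1 := by
      rw [coeff_map]
      exact (hvk _ (mem_support_iff.1 hβ)).le
    revert hβ hcoeff
    refine Fin.cases ?_ (fun i => ?_) j
    · intro hβ _
      simp [Q'] at hβ
    · intro hβ hcoeff
      refine ⟨i, rfl, ?_, ?_, hcoeff⟩
      · have h1 : (Q' i.succ).IsHomogeneous d := by
          have h2 := (isHomogeneous_X k (0 : Fin (N + 1))).mul (hQ i)
          have h3 : 1 + (d - 1) = d := by omega
          rw [h3] at h2
          simpa [Q'] using h2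
        exact sum_of_homog h1 hβ
      · have h1 : coeff β (X 0 * Q i) ≠ 0 := mem_support_iff.1 hβ
        rw [coeff_X_mul'] at h1
        have h2 : (0 : Fin (N + 1)) ∈ β.support := by
          by_contra h3
          rw [if_neg h3] at h1
          exact h1 rfl
        have := Finsupp.mem_support_iff.1 h2
        omega
  have hmain := dmlAt hd v hvn hn σ (fun j => ck (a j))
    (fun j => (map_ne_zero ck).2 (ha j)) (fun j => map ck (Q' j)) α
    (fun j => by
      refine Fin.cases ?_ (fun i => ?_) j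
      · rw [hα0]
        exact one_ne_zero
      · intro h0
        have h1 := hvs i
        rw [h0, map_zero] at h1
        linarith)
    (by
      intro j β hβ
      obtain ⟨i, rfl, h1, h2, h3⟩ := hQ' j β hβ
      have h4 := prod_lt_pow (r := fun l => v (α l)) hR hv0 hvs h1 h2
      show v (coeff β (map ck (Q' i.succ))) * ∏ l, v (α l) ^ (β l) <
        v (ck (a i.succ)) * v (α i.succ) ^ d
      rw [hvk _ (ha _), one_mul, hvs]
      have h5 : 0 ≤ ∏ l, v (α l) ^ (β l) :=
        Finset.prod_nonneg fun l _ => pow_nonneg (v.nonneg _) _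
      calc v (coeff β (map ck (Q' i.succ))) * ∏ l, v (α l) ^ (β l)
          ≤ 1 * ∏ l, v (α l) ^ (β l) := mul_le_mul_of_nonneg_right h3 h5
        _ = ∏ l, v (α l) ^ (β l) := one_mul _
        _ < R ^ d := h4)
    (by
      intro j β hβ
      obtain ⟨i, rfl, h1, h2, h3⟩ := hQ' j β hβ
      have hR' : 1 < R ^ (d - 1) := one_lt_pow₀ hR (by omega)
      have h4 := prod_lt_pow (r := fun l => v (ck (a l)) * v (α l) ^ (d - 1)) hR'
        (by rw [hvk _ (ha _), hv0, one_pow, one_mul])
        (fun l => by rw [hvk _ (ha _), hvs, one_mul]) h1 h2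
      show ∏ l, (v (ck (a l)) * v (α l) ^ (d - 1)) ^ (β l) <
        (v (ck (a i.succ)) * v (α i.succ) ^ (d - 1)) ^ d
      rw [hvk _ (ha i.succ), one_mul, hvs]
      exact h4)
  have hfin : (fun j => map σ (C (ck (a j)) * X j ^ d + map ck (Q' j))) =
      fun j => map (algebraMap k ℂ) (sys d a Q j) := by
    funext j
    have hcomp : σ.comp ck = algebraMap k ℂ := RingHom.ext hσk
    rw [hsys j, map_add, map_add, map_mul, map_mul, map_C, map_C, map_pow, map_pow, map_X, map_X,
      map_map, hcomp, hσk]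
  rw [hσα, hfin] at hmain
  exact hmain

end

end Pool.Agent.N137.DR
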