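import Pool.Agent.N137.DR.Unit

set_option autoImplicit false

/-!
# Approximation of a dominated orbit by exponential sums
-/

namespace Pool.Agent.N137.DR

open Filter Topology MvPolynomial Pool.Agent.N137.AO

/-- A dominated orbit. -/
structure DatE (K : Type) [NormedField K] [IsUltrametricDist K] (ι : Type) [Fintype ι] where
  /-- degree -/
  d : ℕ
  hd : 2 ≤ d
  hn : ∀ n : ℕ, n ≠ 0 → ‖(n : K)‖ = 1
  /-- leading coefficients -/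
  a : ι → K
  ha : ∀ i, a i ≠ 0
  /-- lower terms -/
  P : ι → MvPolynomial ι K
  /-- orbit -/
  y : ℕ → ι → K
  hy : ∀ n i, y (n + 1) i = a i * y n i ^ d + eval (y n) (P i)
  y0 : ∀ i, y 0 i ≠ 0
  /-- bound -/
  κ : ℝ
  κ_pos : 0 < κ
  κ_lt : κ < 1
  c1 : ∀ i, ∀ β ∈ (P i).support,
    ‖coeff β (P i)‖ * ∏ j, ‖y 0 j‖ ^ (β j) ≤ κ * (‖a i‖ * ‖y 0 i‖ ^ d)
  c2 : ∀ i, ∀ β ∈ (P i).support,
    ∏ j, (‖a j‖ * ‖y 0 j‖ ^ (d - 1)) ^ (β j) ≤ κ * (‖a i‖ * ‖y 0 i‖ ^ (d - 1)) ^ d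

namespace DatE

variable {K : Type} [NormedField K] [IsUltrametricDist K] {ι : Type} [Fintype ι] (D : DatE K ι)

/-- growth rate -/
noncomputable def W (i : ι) : ℝ := ‖D.a i‖ * ‖D.y 0 i‖ ^ (D.d - 1)

theorem W_pos (i : ι) : 0 < D.W i :=
  mul_pos (norm_pos_iff.2 (D.ha i)) (pow_pos (norm_pos_iff.2 (D.y0 i)) _)

/-- exponents -/
noncomputable def e (n : ℕ) : ℕ := ex D.d n

theorem e_succ (n : ℕ) : D.e (n + 1) = D.d * D.e n + 1 := rfl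

theorem e_zero : D.e 0 = 0 := rfl

theorem le_e (n : ℕ) : n ≤ D.e n := le_ex D.d n D.hd

theorem κ_pow_le {m n : ℕ} (h : m ≤ n) : D.κ ^ n ≤ D.κ ^ m :=
  pow_le_pow_of_le_one D.κ_pos.le D.κ_lt.le h

theorem term_bound (n : ℕ) (hnorm : ∀ i, ‖D.y n i‖ = ‖D.y 0 i‖ * D.W i ^ D.e n) (i : ι)
    (β : ι →₀ ℕ) (hβ : β ∈ (D.P i).support) :
    ‖coeff β (D.P i) * ∏ j, D.y n j ^ (β j)‖ ≤ D.κ ^ (D.e n + 1) * ‖D.a i * D.y n i ^ D.d‖ := by
  rw [norm_mul, norm_prod, norm_mul, norm_pow, hnorm i]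
  have h1 : ∏ j, ‖D.y n j ^ (β j)‖ = (∏ j, ‖D.y 0 j‖ ^ (β j)) * (∏ j, D.W j ^ (β j)) ^ D.e n := by
    rw [← Finset.prod_pow, ← Finset.prod_mul_distrib]
    refine Finset.prod_congr rfl fun j _ => ?_
    rw [norm_pow, hnorm j, mul_pow, ← pow_mul, ← pow_mul, mul_comm (β j)]
  rw [h1]
  have h2 := D.c1 i β hβ
  have h3 : (∏ j, D.W j ^ (β j)) ^ D.e n ≤ (D.κ * D.W i ^ D.d) ^ D.e n := by
    refine pow_le_pow_left₀ ?_ (D.c2 i β hβ) _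
    exact Finset.prod_nonneg fun j _ => pow_nonneg (D.W_pos j).le _
  have h4 : 0 ≤ (∏ j, D.W j ^ (β j)) ^ D.e n :=
    pow_nonneg (Finset.prod_nonneg fun j _ => pow_nonneg (D.W_pos j).le _) _
  have h5 : 0 ≤ D.κ * (‖D.a i‖ * ‖D.y 0 i‖ ^ D.d) :=
    mul_nonneg D.κ_pos.le (mul_nonneg (norm_nonneg _) (pow_nonneg (norm_nonneg _) _))
  calc ‖coeff β (D.P i)‖ * ((∏ j, ‖D.y 0 j‖ ^ (β j)) * (∏ j, D.W j ^ (β j)) ^ D.e n)
      = (‖coeff β (D.P i)‖ * ∏ j, ‖D.y 0 j‖ ^ (β j)) * (∏ j, D.W j ^ (β j)) ^ D.e n := by ring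
    _ ≤ (D.κ * (‖D.a i‖ * ‖D.y 0 i‖ ^ D.d)) * (D.κ * D.W i ^ D.d) ^ D.e n :=
        mul_le_mul h2 h3 h4 h5
    _ = D.κ ^ (D.e n + 1) * (‖D.a i‖ * (‖D.y 0 i‖ * D.W i ^ D.e n) ^ D.d) := by
        rw [mul_pow D.κ, ← pow_mul, mul_pow ‖D.y 0 i‖, ← pow_mul, pow_succ]
        ring

theorem eval_bound (n : ℕ) (hnorm : ∀ i, ‖D.y n i‖ = ‖D.y 0 i‖ * D.W i ^ D.e n) (i : ι) :
    ‖eval (D.y n) (D.P i)‖ ≤ D.κ ^ (D.e n + 1) * ‖D.a i * D.y n i ^ D.d‖ := by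
  rw [eval_eq']
  refine IsUltrametricDist.norm_sum_le_of_forall_le_of_nonneg
    (mul_nonneg (pow_nonneg D.κ_pos.le _) (norm_nonneg _)) fun β hβ => ?_
  exact D.term_bound n hnorm i β hβ

theorem norm_y (n : ℕ) : ∀ i, ‖D.y n i‖ = ‖D.y 0 i‖ * D.W i ^ D.e n := by
  induction n with
  | zero => intro i; rw [e_zero, pow_zero, mul_one]
  | succ n ih =>
    intro i
    have h1 := D.eval_bound n ih i
    have h2 : 0 < ‖D.a i * D.y n i ^ D.d‖ := by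
      rw [norm_mul, norm_pow, ih]
      exact mul_pos (norm_pos_iff.2 (D.ha i)) (pow_pos (mul_pos (norm_pos_iff.2 (D.y0 i))
        (pow_pos (D.W_pos i) _)) _)
    have h3 : ‖eval (D.y n) (D.P i)‖ < ‖D.a i * D.y n i ^ D.d‖ := by
      refine h1.trans_lt ?_
      have h4 : D.κ ^ (D.e n + 1) < 1 := pow_lt_one₀ D.κ_pos.le D.κ_lt (Nat.succ_ne_zero _)
      exact mul_lt_of_lt_one_left h2 h4
    rw [D.hy, IsUltrametricDist.norm_add_eq_max_of_norm_ne_norm h3.ne', max_eq_left h3.le,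
      norm_mul, norm_pow, ih, e_succ]
    obtain ⟨k, hk⟩ : ∃ k, D.d = k + 1 := ⟨D.d - 1, by have := D.hd; omega⟩
    have hW : D.W i = ‖D.a i‖ * ‖D.y 0 i‖ ^ k := by rw [W, hk, Nat.add_sub_cancel]
    rw [pow_succ (D.W i), pow_mul', mul_pow, hk, pow_succ ‖D.y 0 i‖ k]
    conv_rhs => rw [hW]
    rw [hW]
    ring

theorem y_ne (n : ℕ) (i : ι) : D.y n i ≠ 0 := by
  rw [← norm_pos_iff, D.norm_y n i]
  exact mul_pos (norm_pos_iff.2 (D.y0 i)) (pow_pos (D.W_pos i) _)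

/-- relative size of the lower terms -/
noncomputable def r (n : ℕ) (i : ι) : K := eval (D.y n) (D.P i) / (D.a i * D.y n i ^ D.d)

theorem r_bound (n : ℕ) (i : ι) : ‖D.r n i‖ ≤ D.κ ^ (D.e n + 1) := by
  rw [r, norm_div]
  have h2 : 0 < ‖D.a i * D.y n i ^ D.d‖ :=
    norm_pos_iff.2 (mul_ne_zero (D.ha i) (pow_ne_zero _ (D.y_ne n i)))
  rw [div_le_iff₀ h2]
  exact D.eval_bound n (D.norm_y n) i

theorem hyr (n : ℕ) (i : ι) : D.y (n + 1) i = D.a i * D.y n i ^ D.d * (1 + D.r n i) := by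
  have h2 : D.a i * D.y n i ^ D.d ≠ 0 := mul_ne_zero (D.ha i) (pow_ne_zero _ (D.y_ne n i))
  rw [D.hy, r, mul_add, mul_one, mul_div_cancel₀ _ h2]

variable [CompleteSpace K]

theorem exists_b (i : ι) : ∃ b : K, ‖b‖ = ‖D.y 0 i‖ ∧
    ∀ n, ‖D.y n i / (b * (D.a i * b ^ (D.d - 1)) ^ D.e n) - 1‖ ≤ D.κ ^ (D.e n + 1) :=
  boettcher D.hn D.d D.hd (D.a i) (D.ha i) (fun n => D.y n i) (fun n => D.r n i)
    (fun n => D.hyr n i) (D.y0 i) D.κ D.κ_pos D.κ_lt (fun n => D.r_bound n i)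

/-- Boettcher coordinate -/
noncomputable def b (i : ι) : K := (D.exists_b i).choose

theorem norm_b (i : ι) : ‖D.b i‖ = ‖D.y 0 i‖ := (D.exists_b i).choose_spec.1

theorem b_ne (i : ι) : D.b i ≠ 0 := by
  rw [← norm_pos_iff, D.norm_b]
  exact norm_pos_iff.2 (D.y0 i)

/-- base -/
noncomputable def w (i : ι) : K := D.a i * D.b i ^ (D.d - 1)

theorem norm_w (i : ι) : ‖D.w i‖ = D.W i := by
  rw [w, norm_mul, norm_pow, D.norm_b, W]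

theorem w_ne (i : ι) : D.w i ≠ 0 := by
  rw [← norm_pos_iff, D.norm_w]
  exact D.W_pos i

/-- deviation -/
noncomputable def η (n : ℕ) (i : ι) : K := D.y n i / (D.b i * D.w i ^ D.e n) - 1

theorem η_bound (n : ℕ) (i : ι) : ‖D.η n i‖ ≤ D.κ ^ (D.e n + 1) :=
  (D.exists_b i).choose_spec.2 n

theorem y_eq (n : ℕ) (i : ι) : D.y n i = D.b i * D.w i ^ D.e n * (1 + D.η n i) := by
  have h1 : D.b i * D.w i ^ D.e n ≠ 0 := mul_ne_zero (D.b_ne i) (pow_ne_zero _ (D.w_ne i))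
  rw [η, add_sub_cancel, mul_div_cancel₀ _ h1]

theorem wb (i : ι) : D.w i * D.b i = D.a i * D.b i ^ D.d := by
  rw [w]
  obtain ⟨k, hk⟩ : ∃ k, D.d = k + 1 := ⟨D.d - 1, by have := D.hd; omega⟩
  rw [hk, Nat.add_sub_cancel, pow_succ]
  ring

/-- constants of the lower terms -/
noncomputable def cc (i : ι) (β : ι →₀ ℕ) : K :=
  coeff β (D.P i) * (∏ j, D.b j ^ (β j)) / (D.a i * D.b i ^ D.d)

/-- bases of the lower terms -/
noncomputable def mm (i : ι) (β : ι →₀ ℕ) : K := (∏ j, D.w j ^ (β j)) / D.w i ^ D.d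

theorem norm_cc (i : ι) (β : ι →₀ ℕ) (hβ : β ∈ (D.P i).support) : ‖D.cc i β‖ ≤ D.κ := by
  have h2 : 0 < ‖D.a i‖ * ‖D.y 0 i‖ ^ D.d :=
    mul_pos (norm_pos_iff.2 (D.ha i)) (pow_pos (norm_pos_iff.2 (D.y0 i)) _)
  rw [cc, norm_div, norm_mul, norm_prod, norm_mul, norm_pow, D.norm_b i]
  simp only [norm_pow, D.norm_b]
  rw [div_le_iff₀ h2]
  exact D.c1 i β hβ

theorem norm_mm (i : ι) (β : ι →₀ ℕ) (hβ : β ∈ (D.P i).support) : ‖D.mm i β‖ ≤ D.κ := by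
  have h2 : 0 < D.W i ^ D.d := pow_pos (D.W_pos i) _
  rw [mm, norm_div, norm_prod, norm_pow, D.norm_w i]
  simp only [norm_pow, D.norm_w]
  rw [div_le_iff₀ h2]
  exact D.c2 i β hβ

/-- the functional equation -/
theorem func (n : ℕ) (i : ι) : 1 + D.η (n + 1) i = (1 + D.η n i) ^ D.d +
    ∑ β ∈ (D.P i).support, D.cc i β * D.mm i β ^ D.e n * ∏ j, (1 + D.η n j) ^ (β j) := by
  have hA : D.b i * D.w i ^ D.e (n + 1) = D.a i * (D.b i * D.w i ^ D.e n) ^ D.d := by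
    rw [e_succ, pow_succ, pow_mul', mul_pow]
    linear_combination ((D.w i ^ D.e n) ^ D.d) * D.wb i
  have hA0 : D.b i * D.w i ^ D.e (n + 1) ≠ 0 := mul_ne_zero (D.b_ne i) (pow_ne_zero _ (D.w_ne i))
  have h1 := D.hy n i
  rw [D.y_eq (n + 1) i, D.y_eq n i, eval_eq'] at h1
  apply mul_left_cancel₀ hA0
  rw [h1, mul_add (D.b i * D.w i ^ D.e (n + 1))]
  congr 1
  · rw [hA, mul_pow (D.b i * D.w i ^ D.e n)]
    ring
  · rw [Finset.mul_sum]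
    refine Finset.sum_congr rfl fun β _ => ?_
    have h2 : ∏ j, D.y n j ^ (β j) = (∏ j, D.b j ^ (β j)) * (∏ j, D.w j ^ (β j)) ^ D.e n *
        ∏ j, (1 + D.η n j) ^ (β j) := by
      rw [← Finset.prod_pow, ← Finset.prod_mul_distrib, ← Finset.prod_mul_distrib]
      refine Finset.prod_congr rfl fun j _ => ?_
      rw [D.y_eq n j, mul_pow, mul_pow, ← pow_mul, ← pow_mul, mul_comm (D.e n)]
    rw [h2, cc, mm, hA, div_pow, mul_pow]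
    have h3 := D.w_ne i
    have h4 := D.b_ne i
    have h5 := D.ha i
    rw [← pow_mul (D.w i), ← pow_mul (D.w i), mul_comm D.d]
    field_simp

end DatE

end Pool.Agent.N137.DR
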