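import Pool.Agent.N137.AO.Res

set_option autoImplicit false

/-!
# One-units in residue characteristic zero
-/

namespace Pool.Agent.N137.DR

open Filter Topology

section ultra

variable {K : Type} [NormedField K] [IsUltrametricDist K]

theorem norm_one_of_close {u : K} (h : ‖u - 1‖ < 1) : ‖u‖ = 1 := by
  have h1 : u = 1 + (u - 1) := by ring
  rw [h1]
  have h2 : ‖u - 1‖ < ‖(1 : K)‖ := by rw [norm_one]; exact h
  rw [IsUltrametricDist.norm_add_eq_max_of_norm_ne_norm h2.ne', max_eq_left h2.le, norm_one]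

theorem close_mul {ε : ℝ} (hε : ε < 1) {u w : K} (hu : ‖u - 1‖ ≤ ε) (hw : ‖w - 1‖ ≤ ε) :
    ‖u * w - 1‖ ≤ ε := by
  have h1 : u * w - 1 = u * (w - 1) + (u - 1) := by ring
  rw [h1]
  refine (IsUltrametricDist.norm_add_le_max _ _).trans (max_le ?_ hu)
  rw [norm_mul, norm_one_of_close (hu.trans_lt hε), one_mul]
  exact hw

omit [IsUltrametricDist K] in
theorem close_one {ε : ℝ} (hε0 : 0 ≤ ε) : ‖(1 : K) - 1‖ ≤ ε := by
  rw [sub_self, norm_zero]
  exact hε0

theorem close_pow {ε : ℝ} (hε0 : 0 ≤ ε) (hε : ε < 1) {u : K} (hu : ‖u - 1‖ ≤ ε) (n : ℕ) :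
    ‖u ^ n - 1‖ ≤ ε := by
  induction n with
  | zero => rw [pow_zero]; exact close_one hε0
  | succ n ih => rw [pow_succ]; exact close_mul hε ih hu

theorem close_inv {ε : ℝ} (hε : ε < 1) {u : K} (hu : ‖u - 1‖ ≤ ε) : ‖u⁻¹ - 1‖ ≤ ε := by
  have h1 := norm_one_of_close (hu.trans_lt hε)
  have h0 : u ≠ 0 := by
    rintro rfl
    rw [norm_zero] at h1
    exact zero_ne_one h1
  have h2 : u⁻¹ - 1 = -(u⁻¹ * (u - 1)) := by
    field_simp
    ring
  rw [h2, norm_neg, norm_mul, norm_inv, h1, inv_one, one_mul]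
  exact hu

theorem close_prod {ι : Type} (s : Finset ι) {ε : ℝ} (hε0 : 0 ≤ ε) (hε : ε < 1) (u : ι → K)
    (hu : ∀ i ∈ s, ‖u i - 1‖ ≤ ε) : ‖∏ i ∈ s, u i - 1‖ ≤ ε := by
  classical
  induction s using Finset.induction_on with
  | empty => rw [Finset.prod_empty]; exact close_one hε0
  | insert a s ha ih =>
    rw [Finset.prod_insert ha]
    exact close_mul hε (hu a (Finset.mem_insert_self _ _))
      (ih fun i hi => hu i (Finset.mem_insert_of_mem hi))

theorem sum_le (s : Finset ℕ) (f : ℕ → K) {C : ℝ} (hC : 0 ≤ C) (h : ∀ i ∈ s, ‖f i‖ ≤ C) :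
    ‖∑ i ∈ s, f i‖ ≤ C :=
  IsUltrametricDist.norm_sum_le_of_forall_le_of_nonneg hC h

/-- the quotient of the difference of powers -/
theorem geom_close {ε : ℝ} (hε0 : 0 ≤ ε) (hε : ε < 1) {z w : K} (hz : ‖z‖ ≤ ε) (hw : ‖w‖ ≤ ε)
    (D : ℕ) : ∃ S : K, ‖S - D‖ ≤ ε ∧ (1 + z) ^ D - (1 + w) ^ D = (z - w) * S := by
  refine ⟨∑ i ∈ Finset.range D, (1 + z) ^ i * (1 + w) ^ (D - 1 - i), ?_, ?_⟩
  · have h1 : (D : K) = ∑ _i ∈ Finset.range D, (1 : K) := by simp
    rw [h1, ← Finset.sum_sub_distrib]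
    refine sum_le _ _ hε0 fun i _ => ?_
    refine close_mul hε (close_pow hε0 hε ?_ _) (close_pow hε0 hε ?_ _)
    · rwa [add_sub_cancel_left]
    · rwa [add_sub_cancel_left]
  · rw [← geom_sum₂_mul]
    ring

variable [CompleteSpace K]

/-- Roots of one-units. -/
theorem exists_root (hn : ∀ n : ℕ, n ≠ 0 → ‖(n : K)‖ = 1) (D : ℕ) (hD : D ≠ 0) (r : K)
    (hr : ‖r‖ < 1) : ∃ z : K, ‖z‖ ≤ ‖r‖ ∧ (1 + z) ^ D = 1 + r := by
  have hDn : ‖(D : K)‖ = 1 := hn D hD
  have hD0 : (D : K) ≠ 0 := by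
    rw [← norm_pos_iff, hDn]
    exact one_pos
  set δ := ‖r‖ with hδ
  have hδ0 : 0 ≤ δ := norm_nonneg _
  let T : K → K := fun z => z - ((1 + z) ^ D - (1 + r)) / D
  have hT : ∀ z w, ‖z‖ ≤ δ → ‖w‖ ≤ δ → ‖T z - T w‖ ≤ δ * ‖z - w‖ := by
    intro z w hz hw
    obtain ⟨S, hS, hS'⟩ := geom_close hδ0 hr hz hw D
    have h1 : T z - T w = -((z - w) * (S - D)) / D := by
      simp only [T]
      have h2 : (z - w) * (S - D) = ((1 + z) ^ D - (1 + w) ^ D) - (z - w) * D := by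
        rw [hS']
        ring
      rw [h2]
      field_simp
      ring
    rw [h1, norm_div, norm_neg, norm_mul, hDn, div_one, mul_comm]
    exact mul_le_mul_of_nonneg_right hS (norm_nonneg _)
  have hT0 : ‖T 0‖ = δ := by
    have h1 : T 0 = r / D := by
      simp only [T, add_zero, one_pow]
      ring
    rw [h1, norm_div, hDn, div_one]
  have hTb : ∀ z, ‖z‖ ≤ δ → ‖T z‖ ≤ δ := by
    intro z hz
    have h1 := hT z 0 hz (by rw [norm_zero]; exact hδ0)
    rw [sub_zero] at h1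
    have h2 : T z = (T z - T 0) + T 0 := by ring
    rw [h2]
    refine (IsUltrametricDist.norm_add_le_max _ _).trans (max_le (h1.trans ?_) hT0.le)
    exact (mul_le_of_le_one_left (norm_nonneg _) hr.le).trans hz
  let s : ℕ → K := fun n => T^[n] 0
  have hs : ∀ n, ‖s n‖ ≤ δ := by
    intro n
    induction n with
    | zero => simp [s, hδ0]
    | succ n ih =>
      simp only [s, Function.iterate_succ_apply']
      exact hTb _ ih
  have hs1 : ∀ n, s (n + 1) = T (s n) := fun n => Function.iterate_succ_apply' _ _ _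
  have hd : ∀ n, dist (s n) (s (n + 1)) ≤ δ * δ ^ n := by
    intro n
    rw [dist_comm, dist_eq_norm]
    induction n with
    | zero =>
      rw [pow_zero, mul_one, hs1]
      have h0 : s 0 = 0 := rfl
      rw [h0, sub_zero]
      exact hT0.le
    | succ n ih =>
      have h1 := hT (s (n + 1)) (s n) (hs _) (hs _)
      rw [← hs1 (n + 1), ← hs1 n] at h1
      refine h1.trans ?_
      calc δ * ‖s (n + 1) - s n‖ ≤ δ * (δ * δ ^ n) := mul_le_mul_of_nonneg_left ih hδ0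
        _ = δ * δ ^ (n + 1) := by ring
  obtain ⟨z, hz⟩ := cauchySeq_tendsto_of_complete (cauchySeq_of_le_geometric δ δ hr hd)
  have hzb : ‖z‖ ≤ δ := le_of_tendsto' hz.norm hs
  refine ⟨z, hzb, ?_⟩
  have hTc : Continuous T := by
    simp only [T]
    fun_prop
  have h1 : T z = z := by
    have h2 := (hTc.tendsto z).comp hz
    have h3 := hz.comp (tendsto_add_atTop_nat 1)
    refine tendsto_nhds_unique ?_ h3
    refine h2.congr fun n => ?_
    exact (hs1 n).symm
  have h4 : ((1 + z) ^ D - (1 + r)) / D = 0 := by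
    have : z - ((1 + z) ^ D - (1 + r)) / D = z := h1
    linear_combination -this
  rw [div_eq_zero_iff] at h4
  rcases h4 with h4 | h4
  · exact sub_eq_zero.1 h4
  · exact absurd h4 hD0

/-- the exponents `1 + d + ... + d ^ (n - 1)` -/
def ex (d : ℕ) : ℕ → ℕ
  | 0 => 0
  | n + 1 => d * ex d n + 1

theorem ex_succ (d n : ℕ) : ex d (n + 1) = d * ex d n + 1 := rfl

theorem pow_ex (d n : ℕ) (hd : 1 ≤ d) : d ^ n = (d - 1) * ex d n + 1 := by
  induction n with
  | zero => simp [ex]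
  | succ n ih =>
    obtain ⟨e, rfl⟩ := Nat.exists_eq_add_of_le hd
    rw [Nat.add_sub_cancel_left] at ih ⊢
    rw [pow_succ, ih, ex_succ]
    ring

theorem le_ex (d n : ℕ) (hd : 2 ≤ d) : n ≤ ex d n := by
  induction n with
  | zero => exact Nat.zero_le _
  | succ n ih =>
    rw [ex_succ]
    have : 1 * ex d n ≤ d * ex d n := Nat.mul_le_mul_right _ (by omega)
    omega

/-- Boettcher's theorem for one orbit. -/
theorem boettcher (hn : ∀ n : ℕ, n ≠ 0 → ‖(n : K)‖ = 1) (d : ℕ) (hd : 2 ≤ d) (a : K) (ha : a ≠ 0)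
    (y r : ℕ → K) (hy : ∀ n, y (n + 1) = a * y n ^ d * (1 + r n)) (hy0 : y 0 ≠ 0) (κ : ℝ)
    (hκ0 : 0 < κ) (hκ : κ < 1) (hr : ∀ n, ‖r n‖ ≤ κ ^ (ex d n + 1)) :
    ∃ b : K, ‖b‖ = ‖y 0‖ ∧
      ∀ n, ‖y n / (b * (a * b ^ (d - 1)) ^ ex d n) - 1‖ ≤ κ ^ (ex d n + 1) := by
  have hε1 : ∀ n, κ ^ (ex d n + 1) < 1 := fun n => pow_lt_one₀ hκ0.le hκ (Nat.succ_ne_zero _)
  have hε0 : ∀ n, 0 ≤ κ ^ (ex d n + 1) := fun n => pow_nonneg hκ0.le _
  have hmono : ∀ m n, m ≤ n → κ ^ (ex d n + 1) ≤ κ ^ (ex d m + 1) := by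
    intro m n hmn
    refine pow_le_pow_of_le_one hκ0.le hκ.le ?_
    have : ex d m ≤ ex d n := by
      induction n, hmn using Nat.le_induction with
      | base => exact le_rfl
      | succ n _ ih =>
        rw [ex_succ]
        have : 1 * ex d n ≤ d * ex d n := Nat.mul_le_mul_right _ (by omega)
        omega
    omega
  have hroot : ∀ n, ∃ z : K, ‖z‖ ≤ κ ^ (ex d n + 1) ∧ (1 + z) ^ (d ^ (n + 1)) = 1 + r n := by
    intro n
    obtain ⟨z, hz, hz'⟩ := exists_root hn (d ^ (n + 1)) (pow_ne_zero _ (by omega)) (r n)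
      ((hr n).trans_lt (hε1 n))
    exact ⟨z, hz.trans (hr n), hz'⟩
  choose z hz hz' using hroot
  have hclose : ∀ n, ‖(1 + z n) - 1‖ ≤ κ ^ (ex d n + 1) := fun n => by
    rw [add_sub_cancel_left]; exact hz n
  let β : ℕ → K := fun N => y 0 * ∏ n ∈ Finset.range N, (1 + z n)
  have hβ1 : ∀ N, β (N + 1) = β N * (1 + z N) := by
    intro N
    simp only [β, Finset.prod_range_succ]
    ring
  have hβn : ∀ N, ‖β N‖ = ‖y 0‖ := by
    intro N
    induction N with
    | zero => simp [β]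
    | succ N ih =>
      rw [hβ1, norm_mul, ih, norm_one_of_close ((hclose N).trans_lt (hε1 N)), mul_one]
  have hβ0 : ∀ N, β N ≠ 0 := fun N => by
    rw [← norm_pos_iff, hβn]
    exact norm_pos_iff.2 hy0
  have hβy : ∀ N, y N = a ^ ex d N * β N ^ d ^ N := by
    intro N
    induction N with
    | zero => simp [β, ex]
    | succ N ih =>
      rw [hy, ih, hβ1, ex_succ, mul_pow (β N), hz', mul_pow, ← pow_mul, ← pow_mul,
        pow_succ a, mul_comm (ex d N) d, ← pow_succ d N]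
      ring
  have hd' : ∀ n, dist (β n) (β (n + 1)) ≤ ‖y 0‖ * κ ^ n := by
    intro n
    rw [dist_comm, dist_eq_norm, hβ1]
    have h1 : β n * (1 + z n) - β n = β n * z n := by ring
    rw [h1, norm_mul, hβn]
    refine mul_le_mul_of_nonneg_left ((hz n).trans ?_) (norm_nonneg _)
    refine pow_le_pow_of_le_one hκ0.le hκ.le ?_
    have := le_ex d n hd
    omega
  obtain ⟨b, hb⟩ := cauchySeq_tendsto_of_complete (cauchySeq_of_le_geometric κ ‖y 0‖ hκ hd')
  have hbn : ‖b‖ = ‖y 0‖ := by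
    refine tendsto_nhds_unique hb.norm ?_
    simp only [hβn]
    exact tendsto_const_nhds
  have hb0 : b ≠ 0 := by
    rw [← norm_pos_iff, hbn]
    exact norm_pos_iff.2 hy0
  refine ⟨b, hbn, fun n => ?_⟩
  -- closeness of the partial products
  have h1 : ∀ m, n ≤ m → ‖β m / β n - 1‖ ≤ κ ^ (ex d n + 1) := by
    intro m hm
    induction m, hm using Nat.le_induction with
    | base => rw [div_self (hβ0 n)]; exact close_one (hε0 n)
    | succ m hm ih =>
      rw [hβ1, mul_div_right_comm]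
      exact close_mul (hε1 n) ih ((hclose m).trans (hmono n m hm))
  have h2 : ‖b / β n - 1‖ ≤ κ ^ (ex d n + 1) := by
    have h3 : Tendsto (fun m => ‖β m / β n - 1‖) atTop (𝓝 ‖b / β n - 1‖) :=
      ((hb.div_const (β n)).sub_const 1).norm
    refine le_of_tendsto h3 ?_
    filter_upwards [eventually_ge_atTop n] with m hm
    exact h1 m hm
  have h4 : ‖β n / b - 1‖ ≤ κ ^ (ex d n + 1) := by
    have := close_inv (hε1 n) h2
    rwa [inv_div] at this
  have h5 : y n / (b * (a * b ^ (d - 1)) ^ ex d n) = (β n / b) ^ d ^ n := by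
    have h6 : b * (a * b ^ (d - 1)) ^ ex d n = a ^ ex d n * b ^ d ^ n := by
      rw [pow_ex d n (by omega), pow_succ, pow_mul, mul_pow]
      ring
    rw [h6, hβy, div_pow]
    have h7 : a ^ ex d n ≠ 0 := pow_ne_zero _ ha
    have h8 : b ^ d ^ n ≠ 0 := pow_ne_zero _ hb0
    field_simp
  rw [h5]
  exact close_pow (hε0 n) (hε1 n) h4 _

end ultra

end Pool.Agent.N137.DR
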